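import Pool.Agent.Helper59.PG.GFin

set_option autoImplicit false
set_option linter.unusedSectionVars false

/-!
# Block G: Peierls' estimate
-/

namespace Pool.Agent.Helper59.PG

open MeasureTheory ProbabilityTheory Set
open Pool.Agent.Helper79.GR Pool.Agent.Helper79.PG Pool.Agent.Helper33.PG

variable {Ω : Type*} [MeasurableSpace Ω] {d : ℕ} {P : Measure Ω} {X : Edge d → Ω → ℝ}
  {ν : Measure ℝ} {a b B : ℝ}

/-- all edges of a finite set are light -/
theorem all_light (h : Env P X ν a b) (s : Finset (Edge d)) (β : ℝ) :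
    P {ω | ∀ e ∈ s, X e ω < β} = ν (Iio β) ^ s.card := by
  classical
  have := h.prob
  have h1 := h.indep.measure_inter_preimage_eq_mul s (sets := fun _ => Iio β)
    (fun _ _ => measurableSet_Iio)
  have h2 : {ω | ∀ e ∈ s, X e ω < β} = ⋂ e ∈ s, X e ⁻¹' Iio β := by
    ext ω
    simp
  rw [h2, h1]
  rw [Finset.prod_congr rfl fun e _ => show P (X e ⁻¹' Iio β) = ν (Iio β) by
    rw [← h.law e, Measure.map_apply (h.meas e) measurableSet_Iio]]
  rw [Finset.prod_const]

/-- many light edges on a given walk -/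
theorem one_walk (h : Env P X ν a b) (hd : 1 ≤ d) {κ β : ℝ} {r : ℝ} (hκ : 0 < κ)
    (hr : (ν.real (Iio β)) ^ κ ≤ r) (w : List (St d))
    (hw : (eds 0 w).Nodup) :
    P {ω | κ * w.length < ((eds 0 w).countP (fun e => decide (X e ω < β)) : ℝ)} ≤
      2 ^ w.length * ENNReal.ofReal r ^ w.length := by
  classical
  have := h.prob
  have hνp := nu_prob h hd
  set m := w.length with hm
  let s₀ : Finset (Edge d) := (eds 0 w).toFinset
  have hs₀ : s₀.card = m := by
    rw [List.toFinset_card_of_nodup hw, length_eds]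
  have hsub : {ω | κ * m < ((eds 0 w).countP (fun e => decide (X e ω < β)) : ℝ)} ⊆
      ⋃ s ∈ s₀.powerset.filter (fun s => κ * m < (s.card : ℝ)), {ω | ∀ e ∈ s, X e ω < β} := by
    intro ω hω
    rw [mem_iUnion₂]
    refine ⟨s₀.filter (fun e => X e ω < β), ?_, ?_⟩
    · rw [Finset.mem_filter, Finset.mem_powerset]
      refine ⟨Finset.filter_subset _ _, ?_⟩
      have h1 : (eds 0 w).countP (fun e => decide (X e ω < β)) =
          (s₀.filter (fun e => X e ω < β)).card := by
        rw [List.countP_eq_length_filter, ← List.toFinset_card_of_nodup (hw.filter _)]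
        congr 1
        ext e
        simp [s₀]
      have h2 : κ * m < ((eds 0 w).countP (fun e => decide (X e ω < β)) : ℝ) := hω
      rwa [h1] at h2
    · intro e he
      exact (Finset.mem_filter.1 he).2
  have hp1 : ν.real (Iio β) ≤ 1 := measureReal_le_one
  have hp0 : 0 ≤ ν.real (Iio β) := measureReal_nonneg
  have hone : ∀ s ∈ s₀.powerset.filter (fun s => κ * m < (s.card : ℝ)),
      P {ω | ∀ e ∈ s, X e ω < β} ≤ ENNReal.ofReal r ^ m := by
    intro s hs
    rw [Finset.mem_filter] at hs
    rw [all_light h s β, ← ofReal_measureReal (μ := ν) (s := Iio β),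
      ← ENNReal.ofReal_pow hp0, ← ENNReal.ofReal_pow ((Real.rpow_nonneg hp0 _).trans hr)]
    refine ENNReal.ofReal_le_ofReal ?_
    calc ν.real (Iio β) ^ s.card = ν.real (Iio β) ^ (s.card : ℝ) := (Real.rpow_natCast _ _).symm
      _ ≤ ν.real (Iio β) ^ (κ * m) := by
          rcases hp0.eq_or_lt with h0 | h0
          · rw [← h0]
            rcases Nat.eq_zero_or_pos m with hm0 | hm0
            · rw [hm0]
              simp only [Nat.cast_zero, mul_zero, Real.rpow_zero]
              exact Real.rpow_le_one le_rfl zero_le_one (Nat.cast_nonneg _)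
            · have h3 : (0 : ℝ) < κ * m := mul_pos hκ (Nat.cast_pos.2 hm0)
              rw [Real.zero_rpow h3.ne', Real.zero_rpow (h3.trans hs.2).ne']
          · exact Real.rpow_le_rpow_of_exponent_ge h0 hp1 hs.2.le
      _ = (ν.real (Iio β) ^ κ) ^ m := by
          rw [Real.rpow_mul hp0, Real.rpow_natCast]
      _ ≤ r ^ m := pow_le_pow_left₀ (Real.rpow_nonneg hp0 _) hr _
  refine (measure_mono hsub).trans ((measure_biUnion_finset_le _ _).trans ?_)
  refine (Finset.sum_le_sum hone).trans ?_
  rw [Finset.sum_const, nsmul_eq_mul]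
  refine mul_le_mul_left ?_ _
  have h4 : (s₀.powerset.filter (fun s => κ * m < (s.card : ℝ))).card ≤ 2 ^ m := by
    refine (Finset.card_filter_le _ _).trans ?_
    rw [Finset.card_powerset, hs₀]
  exact_mod_cast h4

/-- **Peierls' estimate** -/
theorem pei (h : Env P X ν a b) (hd : 1 ≤ d) : Pei P X ν := by
  classical
  intro κ hκ
  have := h.prob
  have hνp := nu_prob h hd
  have hd0 : (0 : ℝ) < d := by exact_mod_cast hd
  set r : ℝ := 1 / (16 * d) with hr
  have hr0 : 0 < r := by positivity
  refine ⟨min (1 / 2) (r ^ κ⁻¹), lt_min (by norm_num) (by positivity), min_le_left _ _, 2, ?_⟩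
  intro β hβ
  have hp0 : 0 ≤ ν.real (Iio β) := measureReal_nonneg
  have hpr : (ν.real (Iio β)) ^ κ ≤ r := by
    calc (ν.real (Iio β)) ^ κ ≤ (r ^ κ⁻¹) ^ κ :=
          Real.rpow_le_rpow hp0 (hβ.trans (min_le_right _ _)) hκ.le
      _ = r := by
          rw [← Real.rpow_mul hr0.le, inv_mul_cancel₀ hκ.ne', Real.rpow_one]
  have hsub : {ω | ∃ w : List (St d), 2 ≤ w.length ∧ (eds 0 w).Nodup ∧
      κ * w.length < ((eds 0 w).countP (fun e => decide (X e ω < β)) : ℝ)} ⊆
      ⋃ m : ℕ, ⋃ f : Fin (m + 2) → St d, {ω | (eds 0 (List.ofFn f)).Nodup ∧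
        κ * (List.ofFn f).length <
          ((eds 0 (List.ofFn f)).countP (fun e => decide (X e ω < β)) : ℝ)} := by
    rintro ω ⟨w, h1, h2, h3⟩
    rw [mem_iUnion]
    obtain ⟨m, hm⟩ := Nat.exists_eq_add_of_le h1
    refine ⟨m, ?_⟩
    rw [mem_iUnion]
    have hm' : w.length = m + 2 := by omega
    refine ⟨fun i => w.get (i.cast hm'.symm), ?_⟩
    have h4 : List.ofFn (fun i : Fin (m + 2) => w.get (i.cast hm'.symm)) = w := by
      apply List.ext_getElem
      · rw [List.length_ofFn, hm']
      · intro n h5 h6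
        rw [List.getElem_ofFn]
        rfl
    rw [Set.mem_ofPred_eq, h4]
    exact ⟨h2, h3⟩
  refine (measure_mono hsub).trans ((measure_iUnion_le _).trans ?_)
  have hm : ∀ m : ℕ, P (⋃ f : Fin (m + 2) → St d, {ω | (eds 0 (List.ofFn f)).Nodup ∧
        κ * (List.ofFn f).length <
          ((eds 0 (List.ofFn f)).countP (fun e => decide (X e ω < β)) : ℝ)}) ≤
      ENNReal.ofReal (1 / 4) ^ (m + 2) := by
    intro m
    refine (measure_iUnion_le _).trans ?_
    rw [tsum_fintype]
    have h1 : ∀ f : Fin (m + 2) → St d, P {ω | (eds 0 (List.ofFn f)).Nodup ∧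
        κ * (List.ofFn f).length <
          ((eds 0 (List.ofFn f)).countP (fun e => decide (X e ω < β)) : ℝ)} ≤
        2 ^ (m + 2) * ENNReal.ofReal r ^ (m + 2) := by
      intro f
      by_cases hf : (eds 0 (List.ofFn f)).Nodup
      · have h2 := one_walk h hd hκ hpr (List.ofFn f) hf
        rw [List.length_ofFn] at h2
        refine (measure_mono ?_).trans h2
        rintro ω ⟨-, h3⟩
        rw [List.length_ofFn] at h3
        exact h3
      · have h2 : {ω | (eds 0 (List.ofFn f)).Nodup ∧ κ * (List.ofFn f).length <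
            ((eds 0 (List.ofFn f)).countP (fun e => decide (X e ω < β)) : ℝ)} = ∅ := by
          rw [eq_empty_iff_forall_notMem]
          rintro ω ⟨h3, -⟩
          exact hf h3
        rw [h2, measure_empty]
        exact zero_le
    refine (Finset.sum_le_sum fun f _ => h1 f).trans ?_
    rw [Finset.sum_const, Finset.card_univ, Fintype.card_fun, Fintype.card_fin, nsmul_eq_mul,
      Fintype.card_prod, Fintype.card_fin, Fintype.card_bool]
    have h3 : ((d * 2) ^ (m + 2) : ℝ) * (2 ^ (m + 2) * r ^ (m + 2)) = (1 / 4) ^ (m + 2) := by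
      rw [← mul_pow, ← mul_pow]
      congr 1
      rw [hr]
      field_simp
      norm_num
    have h4 : (((d * 2) ^ (m + 2) : ℕ) : ENNReal) * (2 ^ (m + 2) * ENNReal.ofReal r ^ (m + 2)) =
        ENNReal.ofReal (((d * 2) ^ (m + 2) : ℝ) * (2 ^ (m + 2) * r ^ (m + 2))) := by
      rw [ENNReal.ofReal_mul (by positivity), ENNReal.ofReal_mul (by positivity),
        ENNReal.ofReal_pow hr0.le, ENNReal.ofReal_pow (by norm_num : (0 : ℝ) ≤ 2),
        ENNReal.ofReal_pow (by positivity : (0 : ℝ) ≤ d * 2)]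
      congr 1
      · rw [Nat.cast_pow]
        congr 1
        rw [ENNReal.ofReal_mul hd0.le, ENNReal.ofReal_natCast]
        push_cast
        norm_num
      · norm_num
    rw [h4, h3, ENNReal.ofReal_pow (by norm_num)]
  refine (ENNReal.tsum_le_tsum hm).trans ?_
  have h5 : ∑' m : ℕ, ENNReal.ofReal (1 / 4) ^ (m + 2) =
      ∑' m : ℕ, ENNReal.ofReal ((1 / 16) * (1 / 4) ^ m) := by
    refine tsum_congr fun m => ?_
    rw [← ENNReal.ofReal_pow (by norm_num)]
    congr 1
    ring
  rw [h5, ← ENNReal.ofReal_tsum_of_nonneg (fun m => by positivity)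
    ((summable_geometric_of_lt_one (by norm_num) (by norm_num)).mul_left _)]
  refine ENNReal.ofReal_le_ofReal ?_
  rw [tsum_mul_left, tsum_geometric_of_lt_one (by norm_num) (by norm_num)]
  norm_num

end Pool.Agent.Helper59.PG
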