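import Mathlib

set_option autoImplicit false
set_option linter.unusedSectionVars false

/-!
# Entropy and change of the law of independent weights (block G1)
-/

namespace Pool.Agent.Helper59.PG

open MeasureTheory ProbabilityTheory Set

/-- the law with the density `φ` -/
noncomputable def wd (ν : Measure ℝ) (φ : ℝ → ℝ) : Measure ℝ :=
  ν.withDensity fun x => ENNReal.ofReal (φ x)

variable {ν : Measure ℝ} [IsProbabilityMeasure ν] {φ : ℝ → ℝ} {c C : ℝ}

theorem integral_wd (hφ : Measurable φ) (h0 : ∀ x, 0 ≤ φ x) (h : ℝ → ℝ) :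
    ∫ x, h x ∂(wd ν φ) = ∫ x, φ x * h x ∂ν := by
  unfold wd
  rw [integral_withDensity_eq_integral_toReal_smul hφ.ennreal_ofReal
    (ae_of_all _ fun x => ENNReal.ofReal_lt_top)]
  refine integral_congr_ae (ae_of_all _ fun x => ?_)
  show (ENNReal.ofReal (φ x)).toReal • h x = φ x * h x
  rw [ENNReal.toReal_ofReal (h0 x), smul_eq_mul]

theorem integrable_phi (hφ : Measurable φ) (h0 : ∀ x, 0 ≤ φ x) (hC : ∀ x, φ x ≤ C) :
    Integrable φ ν :=
  Integrable.of_bound hφ.aestronglyMeasurable C (ae_of_all _ fun x => by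
    rw [Real.norm_eq_abs, abs_of_nonneg (h0 x)]
    exact hC x)

theorem prob_wd (hφ : Measurable φ) (h0 : ∀ x, 0 ≤ φ x) (hC : ∀ x, φ x ≤ C)
    (h1 : ∫ x, φ x ∂ν = 1) : IsProbabilityMeasure (wd ν φ) := by
  constructor
  unfold wd
  rw [withDensity_apply _ MeasurableSet.univ, Measure.restrict_univ,
    ← ofReal_integral_eq_lintegral_ofReal (integrable_phi hφ h0 hC) (ae_of_all _ h0), h1,
    ENNReal.ofReal_one]

/-- the entropy is at most the variance of the density -/
theorem entropy_le (hφ : Measurable φ) (h0 : 0 < c) (hc : ∀ x, c ≤ φ x) (hC : ∀ x, φ x ≤ C)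
    (h1 : ∫ x, φ x ∂ν = 1) :
    ∫ x, φ x * Real.log (φ x) ∂ν ≤ ∫ x, (φ x - 1) ^ 2 ∂ν := by
  have hpos : ∀ x, 0 < φ x := fun x => h0.trans_le (hc x)
  have hC0 : 0 < C := (hpos 0).trans_le (hC 0)
  have hi := integrable_phi (ν := ν) hφ (fun x => (hpos x).le) hC
  have hlog : ∀ x, |Real.log (φ x)| ≤ c⁻¹ + C := by
    intro x
    have h6 : (φ x)⁻¹ ≤ c⁻¹ := inv_anti₀ h0 (hc x)
    have h7 : 0 < c⁻¹ := inv_pos.2 h0
    rw [abs_le]
    constructor
    · have h5 := Real.one_sub_inv_le_log_of_pos (hpos x)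
      linarith
    · have h5 := Real.log_le_sub_one_of_pos (hpos x)
      linarith [hC x]
  have hi2 : Integrable (fun x => φ x * Real.log (φ x)) ν := by
    refine Integrable.of_bound (hφ.mul hφ.log).aestronglyMeasurable
      (C * (c⁻¹ + C)) (ae_of_all _ fun x => ?_)
    rw [Real.norm_eq_abs, abs_mul, abs_of_pos (hpos x)]
    exact mul_le_mul (hC x) (hlog x) (abs_nonneg _) hC0.le
  have hi3 : Integrable (fun x => φ x - 1) ν := hi.sub (integrable_const _)
  have hi4 : Integrable (fun x => (φ x - 1) ^ 2) ν := by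
    refine Integrable.of_bound ((hφ.sub_const 1).pow_const 2).aestronglyMeasurable
      ((C + 1) ^ 2) (ae_of_all _ fun x => ?_)
    rw [Real.norm_eq_abs, abs_pow]
    refine pow_le_pow_left₀ (abs_nonneg _) ?_ 2
    rw [abs_le]
    constructor <;> linarith [hC x, hpos x]
  calc ∫ x, φ x * Real.log (φ x) ∂ν ≤ ∫ x, ((φ x - 1) ^ 2 + (φ x - 1)) ∂ν := by
        refine integral_mono hi2 (hi4.add hi3) fun x => ?_
        have h5 := Real.log_le_sub_one_of_pos (hpos x)
        have h6 := mul_le_mul_of_nonneg_left h5 (hpos x).le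
        show φ x * Real.log (φ x) ≤ (φ x - 1) ^ 2 + (φ x - 1)
        nlinarith
    _ = ∫ x, (φ x - 1) ^ 2 ∂ν := by
        rw [integral_add hi4 hi3, integral_sub hi (integrable_const _), h1, integral_const,
          probReal_univ, one_smul, sub_self, add_zero]

variable {R : Type} [Fintype R]

/-- the density of the product -/
theorem pi_wd (hφ : Measurable φ) (h0 : ∀ x, 0 ≤ φ x) (hC : ∀ x, φ x ≤ C)
    (h1 : ∫ x, φ x ∂ν = 1) :
    Measure.pi (fun _ : R => wd ν φ) =
      (Measure.pi fun _ : R => ν).withDensity fun x => ENNReal.ofReal (∏ e, φ (x e)) := by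
  have hnu := prob_wd hφ h0 hC h1
  have hi := integrable_phi (ν := ν) hφ h0 hC
  refine Measure.pi_eq fun s hs => ?_
  have hms : MeasurableSet (univ.pi s) := MeasurableSet.univ_pi hs
  rw [withDensity_apply _ hms]
  have hint : Integrable (fun x : R → ℝ => ∏ e, φ (x e)) (Measure.pi fun _ => ν) :=
    Integrable.fintype_prod (μ := fun _ : R => ν) fun _ => hi
  rw [← ofReal_integral_eq_lintegral_ofReal hint.restrict
    (ae_of_all _ fun x => Finset.prod_nonneg fun e _ => h0 (x e)),
    ← integral_indicator hms]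
  have h2 : ∀ x : R → ℝ, (univ.pi s).indicator (fun x => ∏ e, φ (x e)) x =
      ∏ e, (s e).indicator φ (x e) := by
    intro x
    by_cases hx : x ∈ univ.pi s
    · rw [indicator_of_mem hx]
      refine Finset.prod_congr rfl fun e _ => ?_
      rw [indicator_of_mem (hx e (mem_univ e))]
    · rw [indicator_of_notMem hx]
      have : ∃ e, x e ∉ s e := by
        by_contra hc
        push Not at hc
        exact hx fun e _ => hc e
      obtain ⟨e, he⟩ := this
      exact (Finset.prod_eq_zero (Finset.mem_univ e) (indicator_of_notMem he _)).symm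
  simp only [h2]
  rw [integral_fintype_prod_eq_prod (μ := fun _ : R => ν) (f := fun e x => (s e).indicator φ x)]
  have h3 : ∀ e, ∫ x, (s e).indicator φ x ∂ν = (wd ν φ).real (s e) := by
    intro e
    have h4 := integral_wd (ν := ν) hφ h0 ((s e).indicator fun _ => 1)
    rw [integral_indicator_const _ (hs e), smul_eq_mul, mul_one] at h4
    rw [h4]
    refine integral_congr_ae (ae_of_all _ fun x => ?_)
    show (s e).indicator φ x = φ x * (s e).indicator (fun _ => (1 : ℝ)) x
    by_cases hx : x ∈ s e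
    · rw [indicator_of_mem hx, indicator_of_mem hx, mul_one]
    · rw [indicator_of_notMem hx, indicator_of_notMem hx, mul_zero]
  simp only [h3]
  rw [ENNReal.ofReal_prod_of_nonneg fun e _ => measureReal_nonneg]
  refine Finset.prod_congr rfl fun e _ => ?_
  rw [ofReal_measureReal]

/-- **Jensen's inequality** for the changed law. -/
theorem gibbs (hφ : Measurable φ) (h0 : 0 < c) (hc : ∀ x, c ≤ φ x) (hC : ∀ x, φ x ≤ C)
    (h1 : ∫ x, φ x ∂ν = 1) {f : (R → ℝ) → ℝ} (hf : Measurable f) {M : ℝ}
    (hM : ∀ᵐ x ∂(Measure.pi fun _ : R => ν), |f x| ≤ M) (l : ℝ) :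
    -(l * ∫ x, f x ∂(Measure.pi fun _ : R => wd ν φ)) -
      Fintype.card R * ∫ x, φ x * Real.log (φ x) ∂ν ≤
      Real.log (∫ x, Real.exp (-(l * f x)) ∂(Measure.pi fun _ : R => ν)) := by
  have hpos : ∀ x, 0 < φ x := fun x => h0.trans_le (hc x)
  have hnu := prob_wd hφ (fun x => (hpos x).le) hC h1
  set P := Measure.pi fun _ : R => ν with hP
  set Q := Measure.pi fun _ : R => wd ν φ with hQ
  have hQP : Q = P.withDensity fun x => ENNReal.ofReal (∏ e, φ (x e)) :=
    pi_wd hφ (fun x => (hpos x).le) hC h1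
  have hac : Q ≪ P := by
    rw [hQP]
    exact withDensity_absolutelyContinuous _ _
  have hM' : ∀ᵐ x ∂Q, |f x| ≤ M := hac.ae_le hM
  have hfQ : Integrable f Q := Integrable.of_bound hf.aestronglyMeasurable M hM'
  have hlogm : Measurable fun x => Real.log (φ x) := hφ.log
  set K := c⁻¹ + C with hK
  have hlog : ∀ x, |Real.log (φ x)| ≤ K := by
    intro x
    have h6 : (φ x)⁻¹ ≤ c⁻¹ := inv_anti₀ h0 (hc x)
    have h7 : 0 < c⁻¹ := inv_pos.2 h0
    have h8 : 0 < C := (hpos 0).trans_le (hC 0)
    rw [abs_le]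
    constructor
    · have h5 := Real.one_sub_inv_le_log_of_pos (hpos x)
      linarith
    · have h5 := Real.log_le_sub_one_of_pos (hpos x)
      linarith [hC x]
  have hlogi : ∀ e : R, Integrable (fun x : R → ℝ => Real.log (φ (x e))) Q := by
    intro e
    exact Integrable.of_bound (hlogm.comp (measurable_pi_apply e)).aestronglyMeasurable _
      (ae_of_all _ fun x => hlog (x e))
  let h : (R → ℝ) → ℝ := fun x => -(l * f x) - ∑ e, Real.log (φ (x e))
  have hmh : Measurable h := by
    refine (hf.const_mul l).neg.sub ?_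
    exact Finset.measurable_sum _ fun e _ => hlogm.comp (measurable_pi_apply e)
  have hhi : Integrable h Q :=
    (hfQ.const_mul l).neg.sub (integrable_finsetSum _ fun e _ => hlogi e)
  have hexp : Integrable (fun x => Real.exp (h x)) Q := by
    refine Integrable.of_bound hmh.exp.aestronglyMeasurable
      (Real.exp (|l| * M + Fintype.card R * K)) ?_
    filter_upwards [hM'] with x hx
    rw [Real.norm_eq_abs, abs_of_pos (Real.exp_pos _)]
    refine Real.exp_le_exp.2 ?_
    have e1 : -(l * f x) ≤ |l| * M := by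
      calc -(l * f x) ≤ |l * f x| := neg_le_abs _
        _ = |l| * |f x| := abs_mul _ _
        _ ≤ |l| * M := mul_le_mul_of_nonneg_left hx (abs_nonneg _)
    have e2 : -∑ e, Real.log (φ (x e)) ≤ Fintype.card R * K := by
      rw [← Finset.sum_neg_distrib]
      calc ∑ e, -Real.log (φ (x e)) ≤ ∑ _e : R, K :=
            Finset.sum_le_sum fun e _ => (neg_le_abs _).trans (hlog (x e))
        _ = _ := by
            rw [Finset.sum_const, Finset.card_univ, nsmul_eq_mul]
    show -(l * f x) - ∑ e, Real.log (φ (x e)) ≤ _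
    linarith
  have hJ : Real.exp (∫ x, h x ∂Q) ≤ ∫ x, Real.exp (h x) ∂Q :=
    convexOn_exp.map_integral_le Real.continuous_exp.continuousOn isClosed_univ
      (ae_of_all _ fun _ => mem_univ _) hhi hexp
  -- the integral of the exponential
  have hI : ∫ x, Real.exp (h x) ∂Q = ∫ x, Real.exp (-(l * f x)) ∂P := by
    rw [hQP, integral_withDensity_eq_integral_toReal_smul]
    · refine integral_congr_ae (ae_of_all _ fun x => ?_)
      have hprod : 0 < ∏ e, φ (x e) := Finset.prod_pos fun e _ => hpos (x e)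
      show (ENNReal.ofReal (∏ e, φ (x e))).toReal • Real.exp (h x) = Real.exp (-(l * f x))
      rw [ENNReal.toReal_ofReal hprod.le, smul_eq_mul]
      show _ * Real.exp (-(l * f x) - ∑ e, Real.log (φ (x e))) = _
      rw [Real.exp_sub, Real.exp_sum]
      have e1 : ∏ e, Real.exp (Real.log (φ (x e))) = ∏ e, φ (x e) :=
        Finset.prod_congr rfl fun e _ => Real.exp_log (hpos (x e))
      rw [e1, mul_div_cancel₀ _ hprod.ne']
    · refine Measurable.ennreal_ofReal ?_
      exact Finset.measurable_prod _ fun e _ => hφ.comp (measurable_pi_apply e)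
    · exact ae_of_all _ fun x => ENNReal.ofReal_lt_top
  -- the integral of the logarithm
  have hS : ∫ x, h x ∂Q = -(l * ∫ x, f x ∂Q) -
      Fintype.card R * ∫ x, φ x * Real.log (φ x) ∂ν := by
    have e1 : ∫ x, h x ∂Q = ∫ x, -(l * f x) ∂Q - ∫ x, ∑ e, Real.log (φ (x e)) ∂Q :=
      integral_sub (hfQ.const_mul l).neg (integrable_finsetSum _ fun e _ => hlogi e)
    rw [e1, integral_neg, integral_const_mul, integral_finsetSum _ fun e _ => hlogi e]
    congr 1
    have e2 : ∀ e : R, ∫ x, Real.log (φ (x e)) ∂Q = ∫ x, φ x * Real.log (φ x) ∂ν := by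
      intro e
      have h6 := (measurePreserving_eval (fun _ : R => wd ν φ) e)
      rw [← integral_wd hφ (fun x => (hpos x).le), ← h6.map_eq,
        integral_map (measurable_pi_apply e).aemeasurable hlogm.aestronglyMeasurable]
    simp only [e2]
    rw [Finset.sum_const, Finset.card_univ, nsmul_eq_mul]
  rw [hI] at hJ
  have h7 := (Real.le_log_iff_exp_le ((Real.exp_pos _).trans_le hJ)).2 hJ
  rwa [hS] at h7

end Pool.Agent.Helper59.PG
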