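import Mathlib

set_option autoImplicit false

/-!
# Quantiles of a law without atoms
-/

namespace Pool.Agent.Helper59.PG

open MeasureTheory Set

/-- For a law without atoms which has no mass below `a` and full mass below `b'` there are
`α < β` such that the mass below `α` is positive, and the mass below `β` is at most `p`. -/
theorem exists_quant {ν : Measure ℝ} [IsProbabilityMeasure ν] (hat : ∀ x, ν {x} = 0) {a : ℝ}
    (ha : ν (Iio a) = 0) {p : ℝ} (hp : 0 < p) (hp1 : p < 1) :
    ∃ α β : ℝ, a ≤ α ∧ α < β ∧ 0 < ν.real (Iic α) ∧ ν.real (Iio β) ≤ p := by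
  let Q : Set ℝ := {t | p < ν.real (Iio t)}
  have hbdd : BddBelow Q := by
    refine ⟨a, fun t ht => ?_⟩
    by_contra hc
    push Not at hc
    have h1 : ν.real (Iio t) = 0 := by
      rw [Measure.real, measure_mono_null (Iio_subset_Iio hc.le) ha, ENNReal.toReal_zero]
    have h2 : p < ν.real (Iio t) := ht
    linarith
  have hne : Q.Nonempty := by
    by_contra hc
    rw [not_nonempty_iff_eq_empty] at hc
    have h1 : ∀ n : ℕ, ν (Iio (n : ℝ)) ≤ ENNReal.ofReal p := by
      intro n
      have h2 : (n : ℝ) ∉ Q := by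
        rw [hc]
        exact notMem_empty _
      have h3 : ν.real (Iio (n : ℝ)) ≤ p := not_lt.1 h2
      exact (ENNReal.le_ofReal_iff_toReal_le (measure_ne_top _ _) hp.le).2 h3
    have h4 : (⋃ n : ℕ, Iio (n : ℝ)) = univ := by
      rw [eq_univ_iff_forall]
      intro x
      obtain ⟨n, hn⟩ := exists_nat_gt x
      exact mem_iUnion.2 ⟨n, hn⟩
    have h5 : ν univ ≤ ENNReal.ofReal p := by
      rw [← h4, Monotone.measure_iUnion]
      · exact iSup_le h1
      · intro m n hmn
        exact Iio_subset_Iio (by exact_mod_cast hmn)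
    rw [measure_univ, ← ENNReal.ofReal_one, ENNReal.ofReal_le_ofReal_iff hp.le] at h5
    linarith
  set β := sInf Q with hβ
  have hmon : ∀ {s t : ℝ}, s ≤ t → ν.real (Iio s) ≤ ν.real (Iio t) := fun h =>
    measureReal_mono (Iio_subset_Iio h)
  -- the mass below `β`
  have h1 : ν.real (Iio β) ≤ p := by
    have h2 : ∀ n : ℕ, ν (Iio (β - 1 / (n + 1))) ≤ ENNReal.ofReal p := by
      intro n
      have h3 : β - 1 / (n + 1) ∉ Q := by
        intro h
        have h4 := csInf_le hbdd h
        rw [← hβ] at h4
        have : (0 : ℝ) < 1 / (n + 1) := by positivity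
        linarith
      have h5 : ν.real (Iio (β - 1 / ((n : ℝ) + 1))) ≤ p := not_lt.1 h3
      exact (ENNReal.le_ofReal_iff_toReal_le (measure_ne_top _ _) hp.le).2 h5
    have h4 : (⋃ n : ℕ, Iio (β - 1 / ((n : ℝ) + 1))) = Iio β := by
      ext x
      simp only [mem_iUnion, mem_Iio]
      constructor
      · rintro ⟨n, hn⟩
        have : (0 : ℝ) < 1 / (n + 1) := by positivity
        linarith
      · intro hx
        obtain ⟨n, hn⟩ := exists_nat_one_div_lt (show 0 < β - x by linarith)
        exact ⟨n, by linarith⟩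
    have h5 : ν (Iio β) ≤ ENNReal.ofReal p := by
      rw [← h4, Monotone.measure_iUnion]
      · exact iSup_le h2
      · intro m n hmn
        refine Iio_subset_Iio ?_
        have h6 : (1 : ℝ) / (n + 1) ≤ 1 / (m + 1) := by
          apply one_div_le_one_div_of_le (by positivity)
          have : (m : ℝ) ≤ n := by exact_mod_cast hmn
          linarith
        linarith
    exact (ENNReal.le_ofReal_iff_toReal_le (measure_ne_top _ _) hp.le).1 h5
  have h2 : ENNReal.ofReal p ≤ ν (Iic β) := by
    have h4 : (⋂ n : ℕ, Iio (β + 1 / ((n : ℝ) + 1))) = Iic β := by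
      ext x
      simp only [mem_iInter, mem_Iio, mem_Iic]
      constructor
      · intro hx
        by_contra hc
        push Not at hc
        obtain ⟨n, hn⟩ := exists_nat_one_div_lt (show 0 < x - β by linarith)
        have := hx n
        linarith
      · intro hx n
        have : (0 : ℝ) < 1 / (n + 1) := by positivity
        linarith
    rw [← h4, Antitone.measure_iInter]
    · refine le_iInf fun n => ?_
      have h5 : ∃ t ∈ Q, t < β + 1 / ((n : ℝ) + 1) :=
        exists_lt_of_csInf_lt hne (by
          rw [← hβ]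
          have : (0 : ℝ) < 1 / (n + 1) := by positivity
          linarith)
      obtain ⟨t, ht, htn⟩ := h5
      have h6 : p ≤ ν.real (Iio (β + 1 / ((n : ℝ) + 1))) :=
        (le_of_lt ht).trans (hmon htn.le)
      exact (ENNReal.ofReal_le_iff_le_toReal (measure_ne_top _ _)).2 h6
    · intro m n hmn
      refine Iio_subset_Iio ?_
      have h6 : (1 : ℝ) / (n + 1) ≤ 1 / (m + 1) := by
        apply one_div_le_one_div_of_le (by positivity)
        have : (m : ℝ) ≤ n := by exact_mod_cast hmn
        linarith
      linarith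
    · exact fun n => measurableSet_Iio.nullMeasurableSet
    · exact ⟨0, measure_ne_top _ _⟩
  have h3 : ν (Iio β) ≠ 0 := by
    intro h
    have h4 : ν (Iic β) ≤ ν (Iio β) + ν {β} := by
      rw [← Iio_union_right]
      exact measure_union_le _ _
    rw [h, hat, add_zero] at h4
    have h5 := h2.trans h4
    rw [nonpos_iff_eq_zero, ENNReal.ofReal_eq_zero] at h5
    linarith
  have h4 : ∃ n : ℕ, ν (Iic (β - 1 / ((n : ℝ) + 1))) ≠ 0 := by
    by_contra hc
    push Not at hc
    have h5 : (⋃ n : ℕ, Iic (β - 1 / ((n : ℝ) + 1))) = Iio β := by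
      ext x
      simp only [mem_iUnion, mem_Iic, mem_Iio]
      constructor
      · rintro ⟨n, hn⟩
        have : (0 : ℝ) < 1 / (n + 1) := by positivity
        linarith
      · intro hx
        obtain ⟨n, hn⟩ := exists_nat_one_div_lt (show 0 < β - x by linarith)
        exact ⟨n, by linarith⟩
    apply h3
    rw [← h5]
    exact measure_iUnion_null hc
  obtain ⟨n, hn⟩ := h4
  have hpos : (0 : ℝ) < 1 / (n + 1) := by positivity
  refine ⟨β - 1 / ((n : ℝ) + 1), β, ?_, by linarith,
    ENNReal.toReal_pos hn (measure_ne_top _ _), h1⟩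
  by_contra hc
  push Not at hc
  exact hn (measure_mono_null (fun x (hx : x ≤ _) => lt_of_le_of_lt hx hc) ha)

end Pool.Agent.Helper59.PG
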