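import Pool.Agent.Helper33.PG.Cnt
import Pool.Agent.Helper33.PG.Coup
import Pool.Agent.Helper33.PG.Herbst
import Pool.Agent.Helper59.PG.GOne
import Pool.Agent.Helper59.PG.Quant

set_option autoImplicit false
set_option linter.unusedSectionVars false

/-!
# Block G: Jensen (assembly)
-/

namespace Pool.Agent.Helper59.PG

open MeasureTheory ProbabilityTheory Set
open Pool.Agent.Helper79.GR Pool.Agent.Helper79.PG Pool.Agent.Helper33.PG

section ext

variable {d : ℕ}

open Classical in
/-- the weights `x` on `R` and `B` off `R` -/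
noncomputable def ext (B : ℝ) (R : Finset (Edge d)) (x : R → ℝ) : Edge d → ℝ := fun e =>
  if h : e ∈ R then x ⟨e, h⟩ else B

theorem ext_mem (B : ℝ) (R : Finset (Edge d)) (x : R → ℝ) {e : Edge d} (h : e ∈ R) :
    ext B R x e = x ⟨e, h⟩ := by
  unfold ext
  rw [dif_pos h]

theorem ext_notMem (B : ℝ) (R : Finset (Edge d)) (x : R → ℝ) {e : Edge d} (h : e ∉ R) :
    ext B R x e = B := by
  unfold ext
  rw [dif_neg h]

theorem cut_eq_ext (B : ℝ) (R : Finset (Edge d)) (c : Edge d → ℝ) :
    cut B R c = ext B R fun e => c e := by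
  funext e
  by_cases h : e ∈ R
  · rw [ext_mem B R _ h]
    unfold cut
    rw [if_pos h]
  · rw [ext_notMem B R _ h]
    unfold cut
    rw [if_neg h]

theorem cut_ext (B B' : ℝ) (R : Finset (Edge d)) (x : R → ℝ) :
    cut B R (ext B' R x) = ext B R x := by
  funext e
  by_cases h : e ∈ R
  · rw [ext_mem B R _ h]
    unfold cut
    rw [if_pos h, ext_mem B' R _ h]
  · rw [ext_notMem B R _ h]
    unfold cut
    rw [if_neg h]

theorem measurable_ext (B : ℝ) (R : Finset (Edge d)) : Measurable (ext B R) := by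
  refine measurable_pi_lambda _ fun e => ?_
  by_cases h : e ∈ R
  · have : (fun x : R → ℝ => ext B R x e) = fun x => x ⟨e, h⟩ := by
      funext x
      exact ext_mem B R x h
    rw [this]
    exact measurable_pi_apply _
  · have : (fun x : R → ℝ => ext B R x e) = fun _ => B := by
      funext x
      exact ext_notMem B R x h
    rw [this]
    exact measurable_const

theorem ext_bd {a b : ℝ} (ha : 0 < a) (hab : a ≤ b) (R : Finset (Edge d)) {x : R → ℝ}
    (hx : ∀ i, x i ∈ Icc a b) : Bd a b (ext b R x) := by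
  refine ⟨ha, fun e => ?_⟩
  by_cases h : e ∈ R
  · rw [ext_mem b R x h]
    exact ⟨(hx _).1, (hx _).2⟩
  · rw [ext_notMem b R x h]
    exact ⟨hab, le_rfl⟩

end ext

variable {Ω : Type*} [MeasurableSpace Ω] {d : ℕ} {P : Measure Ω} {X : Edge d → Ω → ℝ}
  {ν : Measure ℝ} {a b B : ℝ}

theorem nu_prob (h : Env P X ν a b) (hd : 1 ≤ d) : IsProbabilityMeasure ν := by
  have := h.prob
  let e : Edge d := ed 0 (⟨0, hd⟩, true)
  rw [← h.law e]
  exact Measure.isProbabilityMeasure_map (h.meas e).aemeasurable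

theorem nu_compl (h : Env P X ν a b) (hd : 1 ≤ d) : ν (Icc a b)ᶜ = 0 := by
  let e : Edge d := ed 0 (⟨0, hd⟩, true)
  rw [← h.law e, Measure.map_apply (h.meas e) measurableSet_Icc.compl]
  have : X e ⁻¹' (Icc a b)ᶜ = ∅ := by
    rw [eq_empty_iff_forall_notMem]
    intro ω hω
    exact hω (h.bd e ω)
  rw [this, measure_empty]

theorem a_le_b (h : Env P X ν a b) (hd : 1 ≤ d) : a ≤ b := by
  have := h.prob
  let e : Edge d := ed 0 (⟨0, hd⟩, true)
  obtain ⟨ω⟩ : Nonempty Ω := by
    by_contra hc
    rw [not_nonempty_iff] at hc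
    have h1 : P univ = 1 := measure_univ
    rw [univ_eq_empty_iff.2 hc, measure_empty] at h1
    exact zero_ne_one h1
  exact (h.bd e ω).1.trans (h.bd e ω).2

theorem map_restrict (h : Env P X ν a b) (R : Finset (Edge d)) :
    P.map (fun ω (e : R) => X e ω) = Measure.pi fun _ : R => ν := by
  have := h.prob
  have h1 : iIndepFun (fun e : R => X e) P :=
    h.indep.precomp (g := fun e : R => (e : Edge d)) Subtype.val_injective
  have h2 := (iIndepFun_iff_map_fun_eq_pi_map (f := fun e : R => X e)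
    fun e => (h.meas e).aemeasurable).1 h1
  rw [h2]
  congr 1
  funext e
  exact h.law e

theorem integral_restrict (h : Env P X ν a b) (R : Finset (Edge d)) {F : (R → ℝ) → ℝ}
    (hF : Measurable F) :
    ∫ ω, F (fun e : R => X e ω) ∂P = ∫ x, F x ∂(Measure.pi fun _ : R => ν) := by
  have hm : Measurable fun ω (e : R) => X (e : Edge d) ω :=
    measurable_pi_lambda _ fun e => h.meas e
  rw [← map_restrict h R, integral_map hm.aemeasurable hF.aestronglyMeasurable]

/-- the configurations with a long path with many light edges in `R` -/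
def badR (R : Finset (Edge d)) (β κ : ℝ) (n₀ : ℕ) : Set (R → ℝ) :=
  {x | ∃ w : List (St d), n₀ ≤ w.length ∧ (eds 0 w).Nodup ∧
    κ * w.length < ((eds 0 w).countP (fun e => decide (ext β R x e < β)) : ℝ)}

theorem measurable_count (R : Finset (Edge d)) (β : ℝ) (l : List (Edge d)) :
    Measurable fun x : R → ℝ => ((l.countP (fun e => decide (ext β R x e < β)) : ℕ) : ℝ) := by
  induction l with
  | nil =>
    simp only [List.countP_nil, Nat.cast_zero]
    exact measurable_const
  | cons e l ih =>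
    have h1 : (fun x : R → ℝ => (((e :: l).countP (fun e => decide (ext β R x e < β)) : ℕ) : ℝ)) =
        fun x => ((l.countP (fun e => decide (ext β R x e < β)) : ℕ) : ℝ) +
          (if ext β R x e < β then 1 else 0) := by
      funext x
      rw [List.countP_cons]
      push_cast
      congr 1
      by_cases hx : ext β R x e < β
      · simp [hx]
      · simp [hx]
    rw [h1]
    refine ih.add (Measurable.ite ?_ measurable_const measurable_const)
    exact measurableSet_lt ((measurable_pi_apply e).comp (measurable_ext β R)) measurable_const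

theorem measurable_badR (R : Finset (Edge d)) (β κ : ℝ) (n₀ : ℕ) :
    MeasurableSet (badR R β κ n₀) := by
  have h1 : badR R β κ n₀ = ⋃ w : {w : List (St d) // n₀ ≤ w.length ∧ (eds 0 w).Nodup},
      {x | κ * w.1.length < ((eds 0 w.1).countP (fun e => decide (ext β R x e < β)) : ℝ)} := by
    ext x
    rw [mem_iUnion]
    constructor
    · rintro ⟨w, h1, h2, h3⟩
      exact ⟨⟨w, h1, h2⟩, h3⟩
    · rintro ⟨⟨w, h1, h2⟩, h3⟩
      exact ⟨w, h1, h2, h3⟩
  rw [h1]
  refine MeasurableSet.iUnion fun w => ?_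
  exact measurableSet_lt measurable_const (measurable_count R β _)

theorem measure_badR (h : Env P X ν a b) (R : Finset (Edge d)) (β κ : ℝ) (n₀ : ℕ)
    (hP : P {ω | ∃ w : List (St d), n₀ ≤ w.length ∧ (eds 0 w).Nodup ∧
      κ * w.length < ((eds 0 w).countP (fun e => decide (X e ω < β)) : ℝ)} ≤
        ENNReal.ofReal (1 / 8)) :
    (Measure.pi fun _ : R => ν) (badR R β κ n₀) ≤ ENNReal.ofReal (1 / 8) := by
  have hm : Measurable fun ω (e : R) => X (e : Edge d) ω :=
    measurable_pi_lambda _ fun e => h.meas e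
  rw [← map_restrict h R, Measure.map_apply hm (measurable_badR R β κ n₀)]
  refine (measure_mono ?_).trans hP
  rintro ω ⟨w, h1, h2, h3⟩
  refine ⟨w, h1, h2, h3.trans_le ?_⟩
  have h4 : (eds 0 w).countP (fun e => decide (ext β R (fun e : R => X e ω) e < β)) ≤
      (eds 0 w).countP (fun e => decide (X e ω < β)) := by
    refine List.countP_mono_left fun e _ he => ?_
    rw [decide_eq_true_eq] at he ⊢
    by_cases hR : e ∈ R
    · rwa [ext_mem β R _ hR] at he
    · rw [ext_notMem β R _ hR] at he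
      exact absurd he (lt_irrefl _)
  exact_mod_cast h4

open Classical in
/-- the light edges of a walk in `R` -/
theorem card_light (R : Finset (Edge d)) (β : ℝ) (x : R → ℝ) (l : List (Edge d)) :
    ((Finset.univ : Finset R).filter fun i : R => (i : Edge d) ∈ l ∧ ¬ β ≤ x i).card ≤
      l.countP (fun e => decide (ext β R x e < β)) := by
  rw [← Finset.card_map (Function.Embedding.subtype _)]
  rw [List.countP_eq_length_filter]
  refine le_trans (Finset.card_le_card ?_) (List.toFinset_card_le _)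
  intro e he
  rw [Finset.mem_map] at he
  obtain ⟨i, hi, rfl⟩ := he
  rw [Finset.mem_filter] at hi
  rw [List.mem_toFinset, List.mem_filter]
  refine ⟨hi.2.1, ?_⟩
  show decide (ext β R x (i : Edge d) < β) = true
  rw [decide_eq_true_eq, ext_mem β R x i.2]
  exact not_le.1 hi.2.2

/-- the mean of the passage time drops -/
theorem drop (h : Env P X ν a b) (hd : 1 ≤ d) {α β κ : ℝ} {n₀ : ℕ} (hαβ : α < β)
    (hα : 0 < ν.real (Icc a α)) (hβ : 0 < ν.real (Ici β)) (hκ : 0 ≤ κ) (hκ' : 16 * b * κ ≤ a)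
    (hP : P {ω | ∃ w : List (St d), n₀ ≤ w.length ∧ (eds 0 w).Nodup ∧
      κ * w.length < ((eds 0 w).countP (fun e => decide (X e ω < β)) : ℝ)} ≤
        ENNReal.ofReal (1 / 8))
    (R : Finset (Edge d)) (q : V d) (hq : (n₀ : ℝ) ≤ n1 q)
    (hT : ∫ x, T (ext (4 * b) R x) 0 q ∂(Measure.pi fun _ : R => ν) ≤ 2 * b * n1 q)
    {ε : ℝ} (hε : 0 ≤ ε) (hεβ : ε ≤ ν.real (Ici β)) :
    ∫ x, T (ext (4 * b) R x) 0 q
        ∂(Measure.pi fun _ : R => wd ν (dn ν (Icc a α) (Ici β) ε)) ≤
      ∫ x, T (ext (4 * b) R x) 0 q ∂(Measure.pi fun _ : R => ν) -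
        ε * (β - α) / 4 * n1 q := by
  classical
  have hprob := nu_prob h hd
  have hab := a_le_b h hd
  have ha := h.apos
  have hb : 0 < b := ha.trans_le hab
  have hb4 : b ≤ 4 * b := by linarith
  have hn1 : 0 ≤ n1 q := n1_nonneg q
  set Q := Measure.pi fun _ : R => ν with hQ
  let G : (R → ℝ) → ℝ := fun x => T (ext (4 * b) R x) 0 q
  have hGm : Measurable G := (measurable_T_cfg 0 q).comp (measurable_ext _ R)
  let bad := badR R β κ n₀
  have hbadm : MeasurableSet bad := measurable_badR R β κ n₀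
  let N : (R → ℝ) → ℝ := fun x =>
    n1 q - (1 / (4 * b) + κ / a) * G x - bad.indicator (fun _ => n1 q) x
  have hNm : Measurable N :=
    (measurable_const.sub (hGm.const_mul _)).sub (measurable_const.indicator hbadm)
  have hG0 : ∀ x : R → ℝ, (∀ i, x i ∈ Icc a b) → 0 ≤ G x ∧ G x ≤ 4 * b * n1 q := by
    intro x hx
    have h1 := T_cut_bd (ext_bd ha hab R hx) hab hb4 R 0 q
    rwa [cut_ext, sub_zero] at h1
  have hK : 0 ≤ 1 / (4 * b) + κ / a := by positivity
  -- the edges of the geodesic
  have hcnt := fun (x : R → ℝ) (hx : ∀ i, x i ∈ Icc a b) =>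
    cnt (ext_bd ha hab R hx) hb4 R q
  choose! w hw using hcnt
  let wR : (R → ℝ) → Finset R := fun x => Finset.univ.filter fun i : R => (i : Edge d) ∈ eds 0 (w x)
  have hcard : ∀ x : R → ℝ, (R.filter fun e => e ∈ eds 0 (w x)).card = (wR x).card := by
    intro x
    rw [← Finset.card_map (Function.Embedding.subtype _) (s := wR x)]
    congr 1
    ext e
    rw [Finset.mem_filter, Finset.mem_map]
    constructor
    · rintro ⟨h1, h2⟩
      exact ⟨⟨e, h1⟩, Finset.mem_filter.2 ⟨Finset.mem_univ _, h2⟩, rfl⟩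
    · rintro ⟨i, hi, rfl⟩
      exact ⟨i.2, (Finset.mem_filter.1 hi).2⟩
  have hαb : α ≤ b := by
    by_contra hc
    push Not at hc
    have h1 : ν (Ici β) = 0 := by
      refine measure_mono_null (fun t (ht : β ≤ t) => ?_) (nu_compl h hd)
      intro ht'
      have := ht'.2
      linarith
    rw [Measure.real, h1, ENNReal.toReal_zero] at hβ
    exact lt_irrefl _ hβ
  have key := coupling (ν := ν) (a := a) (b := b) (α := α) (β := β) (A := Icc a α)
    (U := Ici β) (ε := ε) measurableSet_Icc measurableSet_Ici ?_ hα hβ hε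
    hεβ (fun t ht => ht.2) (fun t ht => ht) hαβ.le (Icc_subset_Icc_right hαb) (nu_compl h hd)
    (G := G) (N := N) hGm hNm
    (C := 4 * b * n1 q + n1 q + (1 / (4 * b) + κ / a) * (4 * b * n1 q) + n1 q) ?_ ?_ wR ?_ ?_
  rotate_left
  · rw [Set.disjoint_left]
    rintro t ⟨-, ht⟩ ht'
    have : β ≤ t := ht'
    linarith
  · intro x hx
    have h1 := hG0 x hx
    rw [abs_of_nonneg h1.1]
    have h2 : 0 ≤ (1 / (4 * b) + κ / a) * (4 * b * n1 q) := by positivity
    linarith
  · intro x hx
    have h1 := hG0 x hx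
    have h2 : 0 ≤ (1 / (4 * b) + κ / a) * G x := mul_nonneg hK h1.1
    have h3 : (1 / (4 * b) + κ / a) * G x ≤ (1 / (4 * b) + κ / a) * (4 * b * n1 q) :=
      mul_le_mul_of_nonneg_left h1.2 hK
    have h4 : 0 ≤ bad.indicator (fun _ => n1 q) x ∧ bad.indicator (fun _ => n1 q) x ≤ n1 q := by
      by_cases hx' : x ∈ bad
      · rw [indicator_of_mem hx']
        exact ⟨hn1, le_rfl⟩
      · rw [indicator_of_notMem hx']
        exact ⟨le_rfl, hn1⟩
    have h5 : 0 ≤ 4 * b * n1 q := by positivity
    show |n1 q - (1 / (4 * b) + κ / a) * G x - bad.indicator (fun _ => n1 q) x| ≤ _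
    rw [abs_le]
    constructor
    · linarith [h4.2]
    · linarith [h4.1]
  · intro x x' hx hx'
    have h1 := (hw x hx).2.2.2.2.2 (ext b R x') (ext_bd ha hab R hx')
    rw [cut_ext, cut_ext] at h1
    refine h1.trans (le_of_eq ?_)
    show G x + _ = G x + _
    congr 1
    rw [Finset.sum_filter, ← Finset.sum_coe_sort R, Finset.sum_filter]
    refine Finset.sum_congr rfl fun i _ => ?_
    rw [ext_mem b R x' i.2, ext_mem b R x i.2]
  · intro x hx
    obtain ⟨h1, h2, h3, h4, h5, h6⟩ := hw x hx
    rw [cut_ext] at h4 h5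
    have hGx : T (ext (4 * b) R x) 0 q = G x := rfl
    rw [hGx] at h4 h5
    have h7 : (((wR x).filter fun i => x i ∈ Ici β).card : ℝ) +
        (((Finset.univ : Finset R).filter fun i : R => (i : Edge d) ∈ eds 0 (w x) ∧ ¬ β ≤ x i).card : ℝ) =
        ((wR x).card : ℝ) := by
      have h8 := Finset.card_filter_add_card_filter_not (s := wR x) (fun i => x i ∈ Ici β)
      have h9 : (wR x).filter (fun i => ¬ x i ∈ Ici β) =
          (Finset.univ : Finset R).filter fun i : R => (i : Edge d) ∈ eds 0 (w x) ∧ ¬ β ≤ x i := by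
        ext i
        simp [wR, Finset.mem_filter]
      rw [h9] at h8
      exact_mod_cast h8
    rw [hcard x] at h5
    have hlen0 : (0 : ℝ) ≤ ((w x).length : ℝ) := Nat.cast_nonneg _
    by_cases hx' : x ∈ bad
    · have h8 : N x ≤ 0 := by
        show n1 q - (1 / (4 * b) + κ / a) * G x - bad.indicator (fun _ => n1 q) x ≤ 0
        rw [indicator_of_mem hx']
        have := mul_nonneg hK (hG0 x hx).1
        linarith
      exact h8.trans (Nat.cast_nonneg _)
    · have h8 : N x = n1 q - (1 / (4 * b) + κ / a) * G x := by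
        show n1 q - (1 / (4 * b) + κ / a) * G x - bad.indicator (fun _ => n1 q) x = _
        rw [indicator_of_notMem hx', sub_zero]
      have h9 : ((eds 0 (w x)).countP (fun e => decide (ext β R x e < β)) : ℝ) ≤
          κ * (w x).length := by
        by_contra hc
        push Not at hc
        refine hx' ⟨w x, ?_, h2, hc⟩
        exact_mod_cast hq.trans h3
      have h10 : (((Finset.univ : Finset R).filter fun i : R =>
          (i : Edge d) ∈ eds 0 (w x) ∧ ¬ β ≤ x i).card : ℝ) ≤ κ * (w x).length := by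
        refine le_trans ?_ h9
        exact_mod_cast card_light R β x (eds 0 (w x))
      have h11 : κ * (w x).length ≤ κ / a * G x := by
        rw [div_mul_eq_mul_div, le_div_iff₀ ha]
        nlinarith [mul_le_mul_of_nonneg_left h4 hκ]
      have h12 : ((w x).length : ℝ) - (wR x).card ≤ 1 / (4 * b) * G x := by
        rw [one_div_mul_eq_div, le_div_iff₀ (by positivity)]
        linarith
      have h13 : n1 q - (1 / (4 * b) + κ / a) * G x ≤
          (((wR x).filter fun i => x i ∈ Ici β).card : ℝ) := by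
        rw [add_mul]
        linarith
      rw [h8]
      convert h13
  -- the mean of `N`
  have hae : ∀ᵐ x ∂Q, ∀ i, x i ∈ Icc a b := ae_box (nu_compl h hd)
  have hGi : Integrable G Q := by
    refine Integrable.of_bound hGm.aestronglyMeasurable (4 * b * n1 q) ?_
    filter_upwards [hae] with x hx
    rw [Real.norm_eq_abs, abs_of_nonneg (hG0 x hx).1]
    exact (hG0 x hx).2
  have hbi : Integrable (bad.indicator fun _ => n1 q) Q :=
    (integrable_const _).indicator hbadm
  have hN1 : ∫ x, N x ∂Q = n1 q - (1 / (4 * b) + κ / a) * ∫ x, G x ∂Q - Q.real bad * n1 q := by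
    have e1 : ∫ x, N x ∂Q = ∫ x, (n1 q - (1 / (4 * b) + κ / a) * G x) ∂Q -
        ∫ x, bad.indicator (fun _ => n1 q) x ∂Q :=
      integral_sub ((integrable_const _).sub (hGi.const_mul _)) hbi
    rw [e1, integral_sub (integrable_const _) (hGi.const_mul _), integral_const, probReal_univ,
      one_smul, integral_const_mul, integral_indicator_const _ hbadm, smul_eq_mul]
  have hbadP : Q.real bad ≤ 1 / 8 :=
    (ENNReal.le_ofReal_iff_toReal_le (measure_ne_top _ _) (by norm_num)).1
      (measure_badR h R β κ n₀ hP)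
  have hκa : (1 / (4 * b) + κ / a) * (2 * b * n1 q) ≤ 5 / 8 * n1 q := by
    have e1 : 1 / (4 * b) * (2 * b * n1 q) = 1 / 2 * n1 q := by
      field_simp
      ring
    have e2 : κ / a * (2 * b * n1 q) ≤ 1 / 8 * n1 q := by
      have e3 : κ / a * (16 * b) ≤ 1 := by
        rw [div_mul_eq_mul_div, div_le_one ha]
        linarith
      have e4 : κ / a * (2 * b * n1 q) = (κ / a * (16 * b)) * (1 / 8 * n1 q) := by ring
      rw [e4]
      have e5 : 0 ≤ 1 / 8 * n1 q := by positivity
      calc (κ / a * (16 * b)) * (1 / 8 * n1 q) ≤ 1 * (1 / 8 * n1 q) :=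
            mul_le_mul_of_nonneg_right e3 e5
        _ = 1 / 8 * n1 q := one_mul _
    rw [add_mul]
    linarith
  have hNlow : 1 / 4 * n1 q ≤ ∫ x, N x ∂Q := by
    rw [hN1]
    have e1 := mul_le_mul_of_nonneg_left hT hK
    have e2 := mul_le_mul_of_nonneg_right hbadP hn1
    have e3 : ∫ x, G x ∂Q = ∫ x, T (ext (4 * b) R x) 0 q ∂Q := rfl
    rw [e3]
    linarith
  have hU1 : ν.real (Ici β) ≤ 1 := measureReal_le_one
  refine key.trans ?_
  have e1 : ε * (β - α) ≤ ε / ν.real (Ici β) * (β - α) := by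
    refine mul_le_mul_of_nonneg_right ?_ (by linarith)
    rw [le_div_iff₀ hβ]
    nlinarith
  have e2 : ε * (β - α) / 4 * n1 q ≤ ε / ν.real (Ici β) * (β - α) * ∫ x, N x ∂Q := by
    have e3 : 0 ≤ ε * (β - α) := mul_nonneg hε (by linarith)
    calc ε * (β - α) / 4 * n1 q = (ε * (β - α)) * (1 / 4 * n1 q) := by ring
      _ ≤ (ε * (β - α)) * ∫ x, N x ∂Q := mul_le_mul_of_nonneg_left hNlow e3
      _ ≤ _ := mul_le_mul_of_nonneg_right e1 ((by positivity : 0 ≤ 1 / 4 * n1 q).trans hNlow)
  show ∫ x, G x ∂Q - _ ≤ ∫ x, G x ∂Q - _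
  linarith

end Pool.Agent.Helper59.PG
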