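import Pool.Agent.Helper59.PG.GAsm
import Pool.Agent.Helper51.NP.Defs

set_option autoImplicit false
set_option linter.unusedSectionVars false

/-!
# Block G: disorder is relevant on a finite set of edges, from Peierls' estimate
-/

namespace Pool.Agent.Helper59.PG

open MeasureTheory ProbabilityTheory Set
open Pool.Agent.Helper79.GR Pool.Agent.Helper79.PG Pool.Agent.Helper33.PG

section dens

variable {ν : Measure ℝ} [IsProbabilityMeasure ν] {A U : Set ℝ} {ε : ℝ}

theorem dn_bds (hAU : Disjoint A U) (hA : 0 < ν.real A) (hU : 1 / 2 ≤ ν.real U) (h0 : 0 ≤ ε)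
    (h1 : ε ≤ 1 / 4) (t : ℝ) : 1 / 2 ≤ dn ν A U ε t ∧ dn ν A U ε t ≤ 1 + 1 / ν.real A ∧
      (dn ν A U ε t - 1) ^ 2 ≤ ε ^ 2 * (1 / ν.real A + 1 / ν.real U) ^ 2 := by
  have hU0 : 0 < ν.real U := lt_of_lt_of_le (by norm_num) hU
  have e1 : 0 < 1 / ν.real A := by positivity
  have e2 : 0 < 1 / ν.real U := by positivity
  have e3 : 1 / ν.real U ≤ 2 := by
    rw [div_le_iff₀ hU0]
    linarith
  have key : ∀ s : ℝ, -(1 / ν.real U) ≤ s → s ≤ 1 / ν.real A → dn ν A U ε t = 1 + ε * s →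
      1 / 2 ≤ dn ν A U ε t ∧ dn ν A U ε t ≤ 1 + 1 / ν.real A ∧
      (dn ν A U ε t - 1) ^ 2 ≤ ε ^ 2 * (1 / ν.real A + 1 / ν.real U) ^ 2 := by
    intro s hs1 hs2 hs
    rw [hs]
    refine ⟨?_, ?_, ?_⟩
    · have : -2 ≤ s := by linarith
      nlinarith
    · have : ε * s ≤ ε * (1 / ν.real A) := mul_le_mul_of_nonneg_left hs2 h0
      nlinarith
    · have : s ^ 2 ≤ (1 / ν.real A + 1 / ν.real U) ^ 2 := by
        refine sq_le_sq' ?_ ?_ <;> linarith
      have h5 := mul_le_mul_of_nonneg_left this (sq_nonneg ε)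
      have h6 : (1 + ε * s - 1) ^ 2 = ε ^ 2 * s ^ 2 := by ring
      rw [h6]
      exact h5
  by_cases hAt : t ∈ A
  · have hUt : t ∉ U := fun h => hAU.le_bot ⟨hAt, h⟩
    refine key (1 / ν.real A) (by linarith) le_rfl ?_
    unfold dn
    rw [indicator_of_mem hAt, indicator_of_notMem hUt]
    ring
  · by_cases hUt : t ∈ U
    · refine key (-(1 / ν.real U)) le_rfl (by linarith) ?_
      unfold dn
      rw [indicator_of_notMem hAt, indicator_of_mem hUt]
      ring
    · refine key 0 (by linarith) e1.le ?_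
      unfold dn
      rw [indicator_of_notMem hAt, indicator_of_notMem hUt]
      ring

theorem dn_int (hA : MeasurableSet A) (hU : MeasurableSet U) (hA0 : 0 < ν.real A)
    (hU0 : 0 < ν.real U) (ε : ℝ) : ∫ t, dn ν A U ε t ∂ν = 1 := by
  have h1 : Integrable (A.indicator fun _ => (1 : ℝ)) ν := (integrable_const _).indicator hA
  have h2 : Integrable (U.indicator fun _ => (1 : ℝ)) ν := (integrable_const _).indicator hU
  have h3 : Integrable (fun t => A.indicator (fun _ => (1 : ℝ)) t / ν.real A -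
      U.indicator (fun _ => (1 : ℝ)) t / ν.real U) ν := (h1.div_const _).sub (h2.div_const _)
  unfold dn
  rw [integral_add (integrable_const _) (h3.const_mul _), integral_const, probReal_univ, one_smul,
    integral_const_mul, integral_sub (h1.div_const _) (h2.div_const _), integral_div, integral_div,
    integral_indicator_const _ hA, integral_indicator_const _ hU, smul_eq_mul, smul_eq_mul,
    mul_one, mul_one, div_self hA0.ne', div_self hU0.ne']
  ring

end dens

variable {Ω : Type*} [MeasurableSpace Ω] {d : ℕ} {P : Measure Ω} {X : Edge d → Ω → ℝ}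
  {ν : Measure ℝ} {a b B : ℝ}

open Classical in
theorem cut_toFinset {S : Set (Edge d)} (hS : S.Finite) (B : ℝ) (c : Edge d → ℝ) :
    Pool.Agent.Helper51.NP.cut S B c = cut B hS.toFinset c := by
  funext e
  unfold Pool.Agent.Helper51.NP.cut cut Set.piecewise
  by_cases h : e ∈ S
  · rw [if_pos h, if_pos (hS.mem_toFinset.2 h)]
  · rw [if_neg h, if_neg (fun hc => h (hS.mem_toFinset.1 hc))]

/-- at least `n1 q / 2` edges -/
theorem n1_le_two_card (h : Env P X ν a b) (hd : 1 ≤ d) (R : Finset (Edge d)) (q : V d)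
    (hT : ∫ x, T (ext (4 * b) R x) 0 q ∂(Measure.pi fun _ : R => ν) ≤ 2 * b * n1 q) :
    n1 q ≤ 2 * R.card := by
  classical
  have hprob := nu_prob h hd
  have hab := a_le_b h hd
  have ha := h.apos
  have hb : 0 < b := ha.trans_le hab
  have hb4 : b ≤ 4 * b := by linarith
  have hGm : Measurable fun x : R → ℝ => T (ext (4 * b) R x) 0 q :=
    (measurable_T_cfg 0 q).comp (measurable_ext _ R)
  have hae : ∀ᵐ x ∂(Measure.pi fun _ : R => ν), ∀ i, x i ∈ Icc a b := ae_box (nu_compl h hd)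
  have hG0 : ∀ x : R → ℝ, (∀ i, x i ∈ Icc a b) → 0 ≤ T (ext (4 * b) R x) 0 q ∧
      T (ext (4 * b) R x) 0 q ≤ 4 * b * n1 q := by
    intro x hx
    have h1 := T_cut_bd (ext_bd ha hab R hx) hab hb4 R 0 q
    rwa [cut_ext, sub_zero] at h1
  have hGi : Integrable (fun x : R → ℝ => T (ext (4 * b) R x) 0 q)
      (Measure.pi fun _ : R => ν) := by
    refine Integrable.of_bound hGm.aestronglyMeasurable (4 * b * n1 q) ?_
    filter_upwards [hae] with x hx
    rw [Real.norm_eq_abs, abs_of_nonneg (hG0 x hx).1]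
    exact (hG0 x hx).2
  have h1 : ∫ _x, (4 * b * (n1 q - R.card) : ℝ) ∂(Measure.pi fun _ : R => ν) ≤
      ∫ x, T (ext (4 * b) R x) 0 q ∂(Measure.pi fun _ : R => ν) := by
    refine integral_mono_ae (integrable_const _) hGi ?_
    filter_upwards [hae] with x hx
    obtain ⟨w, h1, h2, h3, h4, h5, h6⟩ := cnt (ext_bd ha hab R hx) hb4 R q
    rw [cut_ext] at h5
    have h7 : ((R.filter (fun e => e ∈ eds 0 w)).card : ℝ) ≤ R.card := by
      exact_mod_cast Finset.card_filter_le _ _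
    have h8 : 4 * b * (n1 q - R.card) ≤
        4 * b * (w.length - (R.filter (fun e => e ∈ eds 0 w)).card : ℝ) :=
      mul_le_mul_of_nonneg_left (by linarith) (by linarith)
    exact h8.trans h5
  rw [integral_const, probReal_univ, one_smul] at h1
  have h2 := h1.trans hT
  have h3 : b * (n1 q) ≤ b * (2 * R.card) := by nlinarith
  exact le_of_mul_le_mul_left h3 hb

/-- what Peierls' argument gives -/
def Pei (P : Measure Ω) (X : Edge d → Ω → ℝ) (ν : Measure ℝ) : Prop :=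
  ∀ κ : ℝ, 0 < κ → ∃ p : ℝ, 0 < p ∧ p ≤ 1 / 2 ∧ ∃ n₀ : ℕ, ∀ β : ℝ, ν.real (Iio β) ≤ p →
    P {ω | ∃ w : List (St d), n₀ ≤ w.length ∧ (eds 0 w).Nodup ∧
      κ * w.length < ((eds 0 w).countP (fun e => decide (X e ω < β)) : ℝ)} ≤
        ENNReal.ofReal (1 / 8)

/-- the estimate on the finite product -/
theorem gibbs_fin (h : Env P X ν a b) (hd : 1 ≤ d) {α β κ K c₁ : ℝ} {n₀ : ℕ} (hαβ : α < β)
    (hα : 0 < ν.real (Icc a α)) (hβ : 1 / 2 ≤ ν.real (Ici β)) (hκ : 0 ≤ κ)
    (hκ' : 16 * b * κ ≤ a)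
    (hP : P {ω | ∃ w : List (St d), n₀ ≤ w.length ∧ (eds 0 w).Nodup ∧
      κ * w.length < ((eds 0 w).countP (fun e => decide (X e ω < β)) : ℝ)} ≤
        ENNReal.ofReal (1 / 8))
    (hK : K = (1 / ν.real (Icc a α) + 1 / ν.real (Ici β)) ^ 2)
    (hc0 : 0 < c₁) (hc1 : c₁ ≤ 1 / 8) (hc2 : c₁ * K ≤ (β - α) / 8)
    (R : Finset (Edge d)) (q : V d) (hq : (n₀ : ℝ) ≤ n1 q) (hq0 : 0 < n1 q)
    (hqR : n1 q ≤ 2 * R.card) {l : ℝ} (hl0 : 0 < l) (hl1 : l ≤ 1)
    (hT : ∫ x, T (ext (4 * b) R x) 0 q ∂(Measure.pi fun _ : R => ν) ≤ 2 * b * n1 q) :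
    -(l * ∫ x, T (ext (4 * b) R x) 0 q ∂(Measure.pi fun _ : R => ν)) +
      c₁ * (β - α) / 8 * (l * n1 q) ^ 2 / R.card ≤
      Real.log (∫ x, Real.exp (-(l * T (ext (4 * b) R x) 0 q))
        ∂(Measure.pi fun _ : R => ν)) := by
  have hprob := nu_prob h hd
  have hab := a_le_b h hd
  have ha := h.apos
  have hb4 : b ≤ 4 * b := by linarith
  have hR : (0 : ℝ) < R.card := by linarith
  set s : ℝ := (R.card : ℝ) with hs
  set N := n1 q with hN
  set ε := c₁ * (l * N / s) with hε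
  have hr : l * N / s ≤ 2 := by
    rw [div_le_iff₀ hR]
    nlinarith
  have hr0 : 0 < l * N / s := by positivity
  have hε0 : 0 ≤ ε := by positivity
  have hε1 : ε ≤ 1 / 4 := by nlinarith
  have hAU : Disjoint (Icc a α) (Ici β) := by
    rw [Set.disjoint_left]
    rintro t ⟨-, ht⟩ ht'
    have : β ≤ t := ht'
    linarith
  have hβ0 : 0 < ν.real (Ici β) := lt_of_lt_of_le (by norm_num) hβ
  have hφm : Measurable (dn ν (Icc a α) (Ici β) ε) := measurable_dn measurableSet_Icc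
    measurableSet_Ici
  have hb1 := fun t => dn_bds (ν := ν) hAU hα hβ hε0 hε1 t
  have hφ1 := dn_int (ν := ν) (A := Icc a α) (U := Ici β) measurableSet_Icc measurableSet_Ici
    hα hβ0 ε
  have hfm : Measurable fun x : R → ℝ => T (ext (4 * b) R x) 0 q :=
    (measurable_T_cfg 0 q).comp (measurable_ext _ R)
  have hM : ∀ᵐ x ∂(Measure.pi fun _ : R => ν), |T (ext (4 * b) R x) 0 q| ≤ 4 * b * N := by
    filter_upwards [ae_box (ι := R) (nu_compl h hd)] with x hx
    have h1 := T_cut_bd (ext_bd ha hab R hx) hab hb4 R 0 q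
    rw [cut_ext, sub_zero] at h1
    rw [abs_of_nonneg h1.1]
    exact h1.2
  have hg := gibbs (R := R) hφm (by norm_num : (0 : ℝ) < 1 / 2) (fun x => (hb1 x).1)
    (fun x => (hb1 x).2.1) hφ1 hfm hM l
  have he := entropy_le (ν := ν) hφm (by norm_num : (0 : ℝ) < 1 / 2) (fun x => (hb1 x).1)
    (fun x => (hb1 x).2.1) hφ1
  have hsq : ∫ x, (dn ν (Icc a α) (Ici β) ε x - 1) ^ 2 ∂ν ≤ ε ^ 2 * K := by
    have h1 : ∫ x, (dn ν (Icc a α) (Ici β) ε x - 1) ^ 2 ∂ν ≤ ∫ _x, ε ^ 2 * K ∂ν := by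
      refine integral_mono_of_nonneg (ae_of_all _ fun x => sq_nonneg _) (integrable_const _)
        (ae_of_all _ fun x => ?_)
      have := (hb1 x).2.2
      rw [hK]
      exact this
    rwa [integral_const, probReal_univ, one_smul] at h1
  have hdrop := drop h hd hαβ hα hβ0 hκ hκ' hP R q hq hT hε0 (hε1.trans (by linarith))
  rw [Fintype.card_coe, ← hs] at hg
  have h1 : s * ∫ x, dn ν (Icc a α) (Ici β) ε x * Real.log (dn ν (Icc a α) (Ici β) ε x) ∂ν ≤
      s * (ε ^ 2 * K) := mul_le_mul_of_nonneg_left (he.trans hsq) hR.le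
  have h2 := mul_le_mul_of_nonneg_left hdrop hl0.le
  have h3 : s * (ε ^ 2 * K) = (c₁ * K) * (c₁ * ((l * N) ^ 2 / s)) := by
    rw [hε]
    field_simp
  have h4 : l * (ε * (β - α) / 4 * N) = c₁ * ((l * N) ^ 2 / s) * ((β - α) / 4) := by
    rw [hε]
    field_simp
  have h5 : (c₁ * K) * (c₁ * ((l * N) ^ 2 / s)) ≤ (β - α) / 8 * (c₁ * ((l * N) ^ 2 / s)) :=
    mul_le_mul_of_nonneg_right hc2 (by positivity)
  have h6 : c₁ * (β - α) / 8 * (l * N) ^ 2 / s =
      c₁ * ((l * N) ^ 2 / s) * ((β - α) / 4) - (β - α) / 8 * (c₁ * ((l * N) ^ 2 / s)) := by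
    ring
  refine le_trans ?_ hg
  rw [h6]
  rw [h3] at h1
  rw [mul_sub, h4] at h2
  linarith

/-- **disorder is relevant on a finite set of edges** -/
theorem gibbs_of (hE : Env P X ν a b) (hν : ∀ x, ν {x} = 0) (hPei : 1 ≤ d → Pei P X ν) :
    ∃ c : ℝ, 0 < c ∧ ∀ (S : Set (Edge d)) (q : V d) (l : ℝ), S.Finite → 0 < l → l ≤ 1 →
      1 / c ≤ n1 q →
      Pool.Agent.Helper51.NP.mc P X S (4 * b) 0 q ≤ 2 * b * n1 q →
      -(l * Pool.Agent.Helper51.NP.mc P X S (4 * b) 0 q) + c * (l * n1 q) ^ 2 / S.ncard ≤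
        Real.log (Pool.Agent.Helper51.NP.Zc P X S (4 * b) l 0 q) := by
  classical
  rcases Nat.eq_zero_or_pos d with hd0 | hd
  · subst hd0
    refine ⟨1, one_pos, ?_⟩
    intro S q l hS hl0 hl1 hq1
    exfalso
    have h0 : n1 q = 0 := by
      unfold n1
      simp
    rw [h0] at hq1
    norm_num at hq1
  have hprob := nu_prob hE hd
  have hab := a_le_b hE hd
  have ha := hE.apos
  have hb : 0 < b := ha.trans_le hab
  obtain ⟨p, hp0, hp1, n₀, hP⟩ := hPei hd (a / (16 * b)) (by positivity)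
  have hIio : ν (Iio a) = 0 := by
    refine measure_mono_null (fun t (ht : t < a) => ?_) (nu_compl hE hd)
    intro ht'
    exact absurd ht'.1 (not_le.2 ht)
  obtain ⟨α, β, haα, hαβ, hα, hβ⟩ := exists_quant hν hIio hp0 (by linarith)
  have hα' : ν.real (Icc a α) = ν.real (Iic α) := by
    have h1 : Iic α = Icc a α ∪ Iio a := by
      ext t
      simp only [mem_Iic, mem_union, mem_Icc, mem_Iio]
      constructor
      · intro ht
        by_cases h : a ≤ t
        · exact Or.inl ⟨h, ht⟩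
        · exact Or.inr (not_le.1 h)
      · rintro (⟨-, h⟩ | h)
        · exact h
        · exact h.le.trans haα
    rw [Measure.real, Measure.real, h1]
    congr 1
    refine le_antisymm (measure_mono subset_union_left) ?_
    refine (measure_union_le _ _).trans ?_
    rw [hIio, add_zero]
  have hβ' : 1 / 2 ≤ ν.real (Ici β) := by
    have h1 : Ici β = (Iio β)ᶜ := (compl_Iio).symm
    rw [h1, probReal_compl_eq_one_sub measurableSet_Iio]
    linarith
  have hα0 : 0 < ν.real (Icc a α) := by rwa [hα']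
  have hβ0 : 0 < ν.real (Ici β) := lt_of_lt_of_le (by norm_num) hβ'
  set K := (1 / ν.real (Icc a α) + 1 / ν.real (Ici β)) ^ 2 with hK
  have hK0 : 0 < K := by positivity
  have hba : 0 < β - α := by linarith
  set c₁ := min (1 / 8) ((β - α) / (8 * K)) with hc₁
  have hc0 : 0 < c₁ := lt_min (by norm_num) (by positivity)
  have hc2 : c₁ * K ≤ (β - α) / 8 := by
    have h1 : c₁ ≤ (β - α) / (8 * K) := min_le_right _ _
    have h2 := mul_le_mul_of_nonneg_right h1 hK0.le
    have h3 : (β - α) / (8 * K) * K = (β - α) / 8 := by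
      field_simp
    rwa [h3] at h2
  refine ⟨min (c₁ * (β - α) / 8) (1 / (n₀ + 1)), lt_min (by positivity) (by positivity), ?_⟩
  intro S q l hS hl0 hl1 hq1 hq3
  have hqn : (n₀ : ℝ) + 1 ≤ n1 q := by
    refine le_trans ?_ hq1
    rw [le_div_iff₀ (lt_min (by positivity) (by positivity))]
    have h1 : min (c₁ * (β - α) / 8) (1 / ((n₀ : ℝ) + 1)) ≤ 1 / (n₀ + 1) := min_le_right _ _
    have h2 : (0 : ℝ) < n₀ + 1 := by positivity
    have h3 := mul_le_mul_of_nonneg_left h1 h2.le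
    rwa [mul_one_div_cancel h2.ne'] at h3
  have hn₀ : (0 : ℝ) ≤ n₀ := Nat.cast_nonneg _
  have hcard : (S.ncard : ℝ) = (hS.toFinset.card : ℝ) := by
    rw [Set.ncard_eq_toFinset_card S hS]
  have hfm : Measurable fun x : hS.toFinset → ℝ => T (ext (4 * b) hS.toFinset x) 0 q :=
    (measurable_T_cfg 0 q).comp (measurable_ext _ _)
  have hmc : Pool.Agent.Helper51.NP.mc P X S (4 * b) 0 q =
      ∫ x, T (ext (4 * b) hS.toFinset x) 0 q ∂(Measure.pi fun _ : hS.toFinset => ν) := by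
    rw [← integral_restrict hE hS.toFinset hfm]
    unfold Pool.Agent.Helper51.NP.mc
    refine integral_congr_ae (ae_of_all _ fun ω => ?_)
    show T _ 0 q = T _ 0 q
    rw [cut_toFinset hS, cut_eq_ext]
    rfl
  have hZc : Pool.Agent.Helper51.NP.Zc P X S (4 * b) l 0 q =
      ∫ x, Real.exp (-(l * T (ext (4 * b) hS.toFinset x) 0 q))
        ∂(Measure.pi fun _ : hS.toFinset => ν) := by
    rw [← integral_restrict hE hS.toFinset
      (F := fun x => Real.exp (-(l * T (ext (4 * b) hS.toFinset x) 0 q)))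
      (Real.measurable_exp.comp (hfm.const_mul l).neg)]
    unfold Pool.Agent.Helper51.NP.Zc
    refine integral_congr_ae (ae_of_all _ fun ω => ?_)
    show Real.exp (-(l * T _ 0 q)) = Real.exp (-(l * T _ 0 q))
    rw [cut_toFinset hS, cut_eq_ext]
    rfl
  rw [hmc] at hq3 ⊢
  rw [hZc, hcard]
  have hq2 := n1_le_two_card hE hd hS.toFinset q hq3
  have hmain := gibbs_fin hE hd hαβ hα0 hβ' (by positivity : 0 ≤ a / (16 * b))
    (by
      have h1 : 16 * b * (a / (16 * b)) = a := by field_simp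
      exact h1.le) (hP β hβ) hK hc0 (min_le_left _ _) hc2 hS.toFinset q
    (by linarith) (by linarith) hq2 hl0 hl1 hq3
  refine le_trans ?_ hmain
  have hR : (0 : ℝ) < hS.toFinset.card := by linarith
  have h7 : min (c₁ * (β - α) / 8) (1 / ((n₀ : ℝ) + 1)) ≤ c₁ * (β - α) / 8 := min_le_left _ _
  have h8 : min (c₁ * (β - α) / 8) (1 / ((n₀ : ℝ) + 1)) * (l * n1 q) ^ 2 / hS.toFinset.card ≤
      c₁ * (β - α) / 8 * (l * n1 q) ^ 2 / hS.toFinset.card := by
    refine div_le_div_of_nonneg_right ?_ hR.le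
    exact mul_le_mul_of_nonneg_right h7 (sq_nonneg _)
  linarith

end Pool.Agent.Helper59.PG
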