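import Mathlib

set_option autoImplicit false

/-!
# The choice of the scale and of the tilt (step (5) of the note 3123)
-/

namespace Pool.Agent.Helper59.PG

/-- Let `F k η` be real numbers, bounded above by `A` for `k ≥ k₁` and `‖η‖ ≤ s`, and let
`F k 0 ≥ -A k`. For every large `k₀` there are `k` in `[k₀, 2 k₀)` and `η` of norm at most `s / 2`
such that `F k` and `F (k - 1)` are at most `F k η` plus a constant in the ball of radius `c / k₀`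
around `η`. -/
theorem exists_scale {E : Type} [NormedAddCommGroup E] {F : ℕ → E → ℝ} {A s : ℝ} {k₁ : ℕ}
    (hA : 1 ≤ A) (hs : 0 < s) (hup : ∀ k, k₁ ≤ k → ∀ η, ‖η‖ ≤ s → F k η ≤ A)
    (hlow : ∀ k, k₁ ≤ k → -(A * k) ≤ F k 0) :
    ∃ c C : ℝ, 0 < c ∧ 0 < C ∧ ∀ k₀ : ℕ, k₁ + 2 ≤ k₀ → ∃ k, k₀ ≤ k ∧ k < 2 * k₀ ∧ ∃ η : E,
      ‖η‖ ≤ s / 2 ∧ ∀ η', ‖η' - η‖ ≤ c / k₀ →
        F k η' ≤ F k η + 1 ∧ F (k - 1) η' ≤ F k η + C := by
  refine ⟨s / (6 * A), 6 * A + 1, by positivity, by positivity, fun k₀ hk₀ => ?_⟩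
  have hk0 : (2 : ℝ) ≤ k₀ := by exact_mod_cast (show 2 ≤ k₀ by omega)
  have hk0' : (0 : ℝ) < k₀ := by linarith
  set δ := s / (6 * A) / k₀ with hδ
  have hδ0 : 0 < δ := by positivity
  have hδs : δ * (3 * A * k₀) = s / 2 := by
    rw [hδ]
    field_simp
    ring
  set F₀ := F (2 * k₀ - 1) 0 with hF₀
  have hF₀' : -(2 * A * k₀) ≤ F₀ := by
    have h1 := hlow (2 * k₀ - 1) (by omega)
    have h2 : ((2 * k₀ - 1 : ℕ) : ℝ) ≤ 2 * k₀ := by
      exact_mod_cast (show 2 * k₀ - 1 ≤ 2 * k₀ by omega)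
    nlinarith
  -- the admissible states
  let S : Set (ℕ × E) := {x | k₀ ≤ x.1 ∧ x.1 < 2 * k₀ ∧ ‖x.2‖ ≤ s ∧ ‖x.2‖ ≤ δ * (F x.1 x.2 - F₀) ∧
    ((2 * k₀ - 1 : ℝ) - x.1) * (6 * A + 1) ≤ F x.1 x.2 - F₀}
  have hrange : ∀ k, k₀ - 1 ≤ k → ∀ η, ‖η‖ ≤ s → F k η - F₀ ≤ 3 * A * k₀ := by
    intro k hk η hη
    have h1 := hup k (by omega) η hη
    nlinarith
  have hstart : ((2 * k₀ - 1, 0) : ℕ × E) ∈ S := by
    refine ⟨?_, ?_, ?_, ?_, ?_⟩
    · show k₀ ≤ 2 * k₀ - 1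
      omega
    · show 2 * k₀ - 1 < 2 * k₀
      omega
    · show ‖(0 : E)‖ ≤ s
      rw [norm_zero]
      exact hs.le
    · show ‖(0 : E)‖ ≤ δ * (F (2 * k₀ - 1) 0 - F₀)
      rw [norm_zero, hF₀, sub_self, mul_zero]
    · show ((2 * k₀ - 1 : ℝ) - ((2 * k₀ - 1 : ℕ) : ℝ)) * (6 * A + 1) ≤ F (2 * k₀ - 1) 0 - F₀
      rw [hF₀, sub_self]
      have h1 : ((2 * k₀ - 1 : ℕ) : ℝ) = 2 * k₀ - 1 := by
        rw [Nat.cast_sub (by omega)]
        push_cast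
        ring
      rw [h1, sub_self, zero_mul]
  let V : Set ℝ := (fun x : ℕ × E => F x.1 x.2) '' S
  have hVne : V.Nonempty := ⟨_, _, hstart, rfl⟩
  have hVbdd : BddAbove V := by
    refine ⟨A, ?_⟩
    rintro y ⟨x, hx, rfl⟩
    exact hup _ (by have := hx.1; omega) _ hx.2.2.1
  obtain ⟨y, ⟨⟨k, η⟩, hx, rfl⟩, hy⟩ := exists_lt_of_lt_csSup hVne
    (show sSup V - 1 < sSup V by linarith)
  obtain ⟨h1, h2, h3, h4, h5⟩ := hx
  simp only at h1 h2 h3 h4 h5 hy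
  have h6 := hrange k (by omega) η h3
  have hη : ‖η‖ ≤ s / 2 := by
    rw [← hδs]
    exact h4.trans (mul_le_mul_of_nonneg_left h6 hδ0.le)
  have hδ' : δ ≤ s / 2 := by
    rw [← hδs]
    have h7 : (1 : ℝ) ≤ 3 * A * k₀ := by nlinarith
    have h8 := mul_le_mul_of_nonneg_left h7 hδ0.le
    rwa [mul_one] at h8
  refine ⟨k, h1, h2, η, hη, fun η' hη' => ?_⟩
  have hη's : ‖η'‖ ≤ ‖η‖ + δ := by
    have h7 : ‖η'‖ ≤ ‖η' - η‖ + ‖η‖ := by
      have := norm_add_le (η' - η) η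
      rwa [sub_add_cancel] at this
    linarith
  constructor
  · by_contra hc
    push Not at hc
    have hmem : ((k, η') : ℕ × E) ∈ S := by
      refine ⟨h1, h2, ?_, ?_, ?_⟩
      · show ‖η'‖ ≤ s
        linarith
      · show ‖η'‖ ≤ δ * (F k η' - F₀)
        nlinarith
      · show ((2 * k₀ - 1 : ℝ) - (k : ℝ)) * (6 * A + 1) ≤ F k η' - F₀
        linarith
    have h8 : F k η' ≤ sSup V := le_csSup hVbdd ⟨_, hmem, rfl⟩
    linarith
  · by_contra hc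
    push Not at hc
    have h9 : ((k - 1 : ℕ) : ℝ) = k - 1 := by
      rw [Nat.cast_sub (by omega)]
      push_cast
      ring
    have h10 : ‖η'‖ ≤ s := by linarith
    have h11 : ((2 * k₀ - 1 : ℝ) - ((k - 1 : ℕ) : ℝ)) * (6 * A + 1) ≤ F (k - 1) η' - F₀ := by
      rw [h9]
      linarith
    have h12 := hrange (k - 1) (by omega) η' h10
    have hmem : ((k - 1, η') : ℕ × E) ∈ S := by
      refine ⟨?_, ?_, h10, ?_, h11⟩
      · show k₀ ≤ k - 1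
        have h13 : ((2 * k₀ - 1 : ℝ) - ((k - 1 : ℕ) : ℝ)) * (6 * A + 1) ≤ 3 * A * k₀ :=
          h11.trans h12
        have h14 : (2 * k₀ - 1 : ℝ) - ((k - 1 : ℕ) : ℝ) ≤ k₀ / 2 := by
          by_contra hc'
          push Not at hc'
          nlinarith
        have h15 : (k₀ : ℝ) ≤ ((k - 1 : ℕ) : ℝ) := by linarith
        exact_mod_cast h15
      · show k - 1 < 2 * k₀
        omega
      · show ‖η'‖ ≤ δ * (F (k - 1) η' - F₀)
        nlinarith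
    have h8 : F (k - 1) η' ≤ sSup V := le_csSup hVbdd ⟨_, hmem, rfl⟩
    linarith

end Pool.Agent.Helper59.PG
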