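import Pool.Agent.Helper59.PG.RelNum
import Pool.Agent.Helper51.NP.F2
import Pool.Agent.Helper51.NP.G1
import Pool.Agent.Helper51.NP.G2

set_option autoImplicit false

/-!
# Block G3: relevance of the disorder
-/

namespace Pool.Agent.Helper59.PG

open MeasureTheory ProbabilityTheory Filter Pool.Agent.Helper79.GR Pool.Agent.Helper79.GQ
open Pool.Agent.Helper51.NP

variable {Ω : Type*} [MeasurableSpace Ω] {P : Measure Ω} {d : ℕ} {X : Edge d → Ω → ℝ}
  {ν : Measure ℝ} {a b C : ℝ} {v : F d} {h : F d →L[ℝ] ℝ}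

theorem n1_le_ncard (hE : Env P X ν a b) (hd : 1 ≤ d) {S : Set (Edge d)} (hS : S.Finite) (q : V d)
    (hmc : mc P X S (4 * b) 0 q ≤ 2 * b * n1 q) : n1 q ≤ 2 * S.ncard := by
  classical
  have hcard : (S.ncard : ℝ) = (hS.toFinset.card : ℝ) := by
    rw [Set.ncard_eq_toFinset_card S hS]
  have hfm : Measurable fun x : hS.toFinset → ℝ => T (ext (4 * b) hS.toFinset x) 0 q :=
    (measurable_T_cfg 0 q).comp (measurable_ext _ _)
  have h1 : mc P X S (4 * b) 0 q =
      ∫ x, T (ext (4 * b) hS.toFinset x) 0 q ∂(Measure.pi fun _ : hS.toFinset => ν) := by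
    rw [← integral_restrict hE hS.toFinset hfm]
    unfold mc
    refine integral_congr_ae (ae_of_all _ fun ω => ?_)
    show T _ 0 q = T _ 0 q
    rw [cut_toFinset hS, cut_eq_ext]
    rfl
  rw [hcard]
  exact n1_le_two_card hE hd hS.toFinset q (h1 ▸ hmc)

theorem abs_h_le (h : F d →L[ℝ] ℝ) (x : F d) : |h x| ≤ ‖h‖ * nr x := by
  have h3 := h.le_opNorm x
  rw [Real.norm_eq_abs] at h3
  refine h3.trans (mul_le_mul_of_nonneg_left ?_ (norm_nonneg h))
  have h4 : 0 ≤ nr x := Finset.sum_nonneg fun i _ => abs_nonneg (x i)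
  rw [pi_norm_le_iff_of_nonneg h4]
  intro i
  rw [Real.norm_eq_abs]
  exact Finset.single_le_sum (f := fun i => |x i|) (fun i _ => abs_nonneg (x i))
    (Finset.mem_univ i)

theorem nr_le_h_tr (v : F d) (h : F d →L[ℝ] ℝ) (x : F d) :
    nr x ≤ |h x| * nr v + tr v h x := by
  unfold tr nr
  rw [Finset.mul_sum, ← Finset.sum_add_distrib]
  refine Finset.sum_le_sum fun i _ => ?_
  have h1 : x i = h x * v i + (x - h x • v) i := by
    simp
  calc |x i| = |h x * v i + (x - h x • v) i| := by rw [← h1]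
    _ ≤ |h x * v i| + |(x - h x • v) i| := abs_add_le _ _
    _ = _ := by rw [abs_mul]

/-- with a probability which is not small, the passage time in the tube is not much larger than
the height -/
theorem tube_prob (hE : Env P X ν a b) {B : ℝ} (hB : b ≤ B) (S : Set (Edge d)) (q : V d)
    {l gq m₁ m₂ : ℝ} (hl : 0 < l) (hm₁ : 0 < m₁) (hm₂ : 0 < m₂)
    (h1 : m₁ ≤ Zc P X S B l 0 q * Real.exp (l * gq))
    (h2 : Z P X (2 * l) 0 q * Real.exp (2 * l * gq) ≤ m₂) :
    m₁ ^ 2 / (4 * m₂) ≤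
      P.real {ω | T (cut S B (cf X ω)) 0 q ≤ gq + Real.log (2 / m₁) / l} := by
  have hprob := hE.prob
  let Y : Ω → ℝ := fun ω => Real.exp (-(l * T (cut S B (cf X ω)) 0 q)) * Real.exp (l * gq)
  have hYm : Measurable Y :=
    (Real.measurable_exp.comp ((measurable_Tc hE S B 0 q).const_mul l).neg).mul_const _
  have hYb : ∃ C, ∀ ω, |Y ω| ≤ C := by
    refine ⟨Real.exp (l * gq), fun ω => ?_⟩
    have hT := T_nonneg' (cut_bd (hE.cf_bd ω) hB S) 0 q
    have h3 : Real.exp (-(l * T (cut S B (cf X ω)) 0 q)) ≤ 1 :=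
      Real.exp_le_one_iff.2 (neg_nonpos.2 (mul_nonneg hl.le hT))
    show |Real.exp (-(l * T (cut S B (cf X ω)) 0 q)) * Real.exp (l * gq)| ≤ _
    rw [abs_of_nonneg (by positivity)]
    calc _ ≤ 1 * Real.exp (l * gq) := mul_le_mul_of_nonneg_right h3 (Real.exp_pos _).le
      _ = _ := one_mul _
  have hY1 : m₁ ≤ ∫ ω, Y ω ∂P := by
    have e1 : ∫ ω, Y ω ∂P = Zc P X S B l 0 q * Real.exp (l * gq) := integral_mul_const _ _
    rw [e1]
    exact h1
  have hY2 : ∫ ω, Y ω ^ 2 ∂P ≤ m₂ := by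
    have e1 : ∀ ω, Y ω ^ 2 =
        Real.exp (-(2 * l * T (cut S B (cf X ω)) 0 q)) * Real.exp (2 * l * gq) := by
      intro ω
      show (Real.exp (-(l * T (cut S B (cf X ω)) 0 q)) * Real.exp (l * gq)) ^ 2 = _
      rw [mul_pow, ← Real.exp_nat_mul, ← Real.exp_nat_mul]
      congr 2
      · push_cast
        ring
      · push_cast
        ring
    simp only [e1]
    rw [integral_mul_const]
    refine le_trans (mul_le_mul_of_nonneg_right ?_ (Real.exp_pos _).le) h2
    exact Zc_le_Z hE hB S (by positivity) 0 q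
  refine (paley hYm hYb hm₁ hY1 hY2).trans ?_
  refine measureReal_mono ?_
  intro ω hω
  have h3 : m₁ / 2 ≤ Real.exp (-(l * T (cut S B (cf X ω)) 0 q)) * Real.exp (l * gq) := hω
  rw [← Real.exp_add] at h3
  have h4 := Real.log_le_log (by positivity) h3
  rw [Real.log_exp] at h4
  have h5 : Real.log (2 / m₁) = -Real.log (m₁ / 2) := by
    rw [← Real.log_inv, inv_div]
  show T (cut S B (cf X ω)) 0 q ≤ gq + Real.log (2 / m₁) / l
  rw [h5]
  have h6 : l * T (cut S B (cf X ω)) 0 q ≤ l * (gq + -Real.log (m₁ / 2) / l) := by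
    have h7 : l * (gq + -Real.log (m₁ / 2) / l) = l * gq - Real.log (m₁ / 2) := by
      field_simp
      ring
    rw [h7]
    linarith
  exact le_of_mul_le_mul_left h6 hl

theorem relevance (hd : 1 ≤ d) (hE : Env P X ν a b) (hν : ∀ x, ν {x} = 0) (hv : h v = 1)
    (hC : 1 ≤ C) :
    ∃ L₀ : ℕ, ∀ L : ℕ, L₀ ≤ L → ∀ (l D E : ℝ) (g : F d →L[ℝ] ℝ),
      Pack P X v h C L l D E g → E / 2 ≤ D := by
  have hprob := hE.prob
  have ha := hE.apos
  have hab := a_le_b hE hd
  have hb : 0 < b := ha.trans_le hab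
  have hb4 : b ≤ 4 * b := by linarith
  obtain ⟨K, hK, L₁, htm⟩ := tube_moments (B := 4 * b) hE hv hC hb4
  obtain ⟨c, hc, hgb⟩ := gibbs' hE hν
  obtain ⟨K₂, hK₂, hct⟩ := card_tub hd v h hv
  have hK0 : 0 < K := by linarith
  have hK₂0 : 0 < K₂ := by linarith
  set H := ‖h‖ + 1 with hH
  have hH0 : 0 < H := by have := norm_nonneg h; linarith
  set V := nr v with hV
  have hV0 : 0 ≤ V := Finset.sum_nonneg fun i _ => abs_nonneg _
  set k4 := hk a b (4 * b) with hk4
  have hk40 : 0 ≤ k4 := by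
    rw [hk4]
    unfold hk
    positivity
  set C₇ := 4 * K + 2 * d with hC₇
  have hC₇0 : 0 < C₇ := by positivity
  set C₈ := 2 * C₇ + K with hC₈
  have hC₈0 : 0 < C₈ := by positivity
  set C₁₀ := √(4 * k4 * C₈ * (2 * V + K)) with hC₁₀
  have hC₁₀0 : 0 ≤ C₁₀ := Real.sqrt_nonneg _
  set A₀ := 4 * H ^ 2 * (K₂ * K ^ d) / c * (C₇ + K + C₁₀) with hA₀
  have hA₀0 : 0 ≤ A₀ := by positivity
  obtain ⟨L₂, hL₂⟩ := pow_lt_two_pow (8 * A₀ ^ 2) (4 * d)
  obtain ⟨L₃, hL₃⟩ := pow_lt_two_pow (8 * H * C₇ / b) 1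
  obtain ⟨L₄, hL₄⟩ := pow_lt_two_pow (64 * H * k4 * C₈ / b ^ 2) 1
  obtain ⟨L₅, hL₅⟩ := pow_lt_two_pow (4 * H / c) 0
  refine ⟨L₁ + L₂ + L₃ + L₄ + L₅ + 1, ?_⟩
  intro L hL l D E g hp
  by_contra hlt
  push Not at hlt
  have hL1 : (1 : ℝ) ≤ L := by
    have : 1 ≤ L := by omega
    exact_mod_cast this
  have hL0 : (0 : ℝ) < L := by linarith
  have hl0 := hp.lpos
  have hu : (2 : ℝ) ^ L ≤ 1 / l := by
    rw [le_div_iff₀ hl0]
    have h4 : (2 : ℝ) ^ L * (1 / 2) ^ L = 1 := by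
      rw [← mul_pow]
      norm_num
    calc (2 : ℝ) ^ L * l ≤ 2 ^ L * (1 / 2) ^ L :=
          mul_le_mul_of_nonneg_left hp.lup (by positivity)
      _ = 1 := h4
  have hlhalf : l ≤ 1 / 2 := by
    refine hp.lup.trans ?_
    calc (1 / 2 : ℝ) ^ L ≤ (1 / 2) ^ 1 :=
          pow_le_pow_of_le_one (by norm_num) (by norm_num) (by omega)
      _ = 1 / 2 := pow_one _
  have hl1 : l ≤ 1 := by linarith
  have hu1 : 1 ≤ 1 / l := by
    rw [le_div_iff₀ hl0]
    linarith
  have hDE := hp.DE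
  have hE2 : E < 2 * l ^ (2 * d + 2) := by linarith
  have hE0 : 0 < E := by
    have := hp.D0
    have : 0 < l ^ (2 * d + 2) := by positivity
    linarith
  have hE1 : E ≤ 1 := by
    have h1 : l ^ (2 * d + 2) ≤ l ^ 1 := pow_le_pow_of_le_one hl0.le hl1 (by omega)
    rw [pow_one] at h1
    linarith
  set M := 1 / (l * E) with hM
  have hlE : 0 < l * E := by positivity
  have hM0 : 0 < M := by positivity
  have hMlow : 1 / (2 * l ^ (2 * d + 3)) ≤ M := by
    rw [hM]
    refine one_div_le_one_div_of_le hlE ?_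
    calc l * E ≤ l * (2 * l ^ (2 * d + 2)) := mul_le_mul_of_nonneg_left hE2.le hl0.le
      _ = 2 * l ^ (2 * d + 3) := by ring
  have hM3 : (1 / l) ^ 3 / 2 ≤ M := by
    refine le_trans ?_ hMlow
    have h1 : l ^ (2 * d + 3) ≤ l ^ 3 := pow_le_pow_of_le_one hl0.le hl1 (by omega)
    have h2 : (1 / l) ^ 3 / 2 = 1 / (2 * l ^ 3) := by
      field_simp
    rw [h2]
    refine one_div_le_one_div_of_le (by positivity) ?_
    linarith
  have hMl : 1 / l ≤ M := by
    rw [hM]
    refine one_div_le_one_div_of_le hlE ?_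
    calc l * E ≤ l * 1 := mul_le_mul_of_nonneg_left hE1 hl0.le
      _ = l := mul_one _
  have hM1 : 1 ≤ M := hu1.trans hMl
  obtain ⟨q, hq1, hq2, hq3, hq4, hq5, hq6⟩ := htm L (by omega) l D E g hp 1 le_rfl hL1
  have hq1' : M / 2 ≤ h (rv q) := by
    refine le_trans (le_of_eq ?_) hq1
    rw [hM]
    field_simp
  have hq2' : h (rv q) ≤ 2 * M := by
    refine hq2.trans (le_of_eq ?_)
    rw [hM]
    ring
  have hKM : K * 1 / (l * E) = K * M := by
    rw [hM]
    ring
  rw [hKM] at hq4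
  set W := K * (L : ℝ) ^ 2 / l with hW
  set S := tub v h W (K * M) with hS
  have hSf : S.Finite := finite_tub v h _ _
  set N := n1 q with hN
  have hN0 : 0 ≤ N := n1_nonneg q
  set gq := g (rv q) with hgq
  -- the size of `q`
  have hNlow : M / (2 * H) ≤ N := by
    have h1 : h (rv q) ≤ H * N := by
      calc h (rv q) ≤ |h (rv q)| := le_abs_self _
        _ ≤ ‖h‖ * nr (rv q) := abs_h_le h _
        _ = ‖h‖ * N := by rw [nr_rv]
        _ ≤ H * N := mul_le_mul_of_nonneg_right (by linarith) hN0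
    rw [div_le_iff₀ (by positivity)]
    have h2 : M ≤ 2 * (H * N) := by linarith
    calc M ≤ 2 * (H * N) := h2
      _ = N * (2 * H) := by ring
  have hNup : N ≤ (2 * V + K) * L ^ 2 * M := by
    have h1 := nr_le_h_tr v h (rv q)
    rw [nr_rv] at h1
    have h2 : 0 ≤ h (rv q) := le_trans (by positivity) hq1'
    rw [abs_of_nonneg h2] at h1
    have h3 : h (rv q) * V ≤ 2 * M * V := mul_le_mul_of_nonneg_right hq2' hV0
    have h4 : W ≤ K * L ^ 2 * M := by
      rw [hW, div_eq_mul_one_div]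
      exact mul_le_mul_of_nonneg_left hMl (by positivity)
    have h5 : (1 : ℝ) ≤ L ^ 2 := one_le_pow₀ hL1
    have h6 : 2 * M * V ≤ 2 * V * L ^ 2 * M := by
      have h7 : 0 ≤ 2 * M * V := by positivity
      calc 2 * M * V = 2 * M * V * 1 := (mul_one _).symm
        _ ≤ 2 * M * V * L ^ 2 := mul_le_mul_of_nonneg_left h5 h7
        _ = 2 * V * L ^ 2 * M := by ring
    have h8 : (2 * V + K) * (L : ℝ) ^ 2 * M = 2 * V * L ^ 2 * M + K * L ^ 2 * M := by ring
    rw [h8]
    linarith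
  -- Paley - Zygmund
  set m₁ := 1 / (2 * (K * (L : ℝ) ^ (2 * d))) with hm₁
  have hm₁0 : 0 < m₁ := by positivity
  have hZc1 : m₁ ≤ Zc P X S (4 * b) l 0 q * Real.exp (l * gq) := by
    have h1 : 1 ≤ Real.exp (1 * D / E) :=
      Real.one_le_exp (div_nonneg (by linarith [hp.D0]) hE0.le)
    have h2 : 1 / 2 ≤ K * (L : ℝ) ^ (2 * d) *
        (Zc P X S (4 * b) l 0 q * Real.exp (l * gq)) := by linarith
    rw [hm₁, div_le_iff₀ (by positivity)]
    calc (1 : ℝ) = 2 * (1 / 2) := by norm_num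
      _ ≤ 2 * (K * (L : ℝ) ^ (2 * d) * (Zc P X S (4 * b) l 0 q * Real.exp (l * gq))) :=
          mul_le_mul_of_nonneg_left h2 (by norm_num)
      _ = _ := by ring
  have hprob1 := tube_prob hE hb4 S q hl0 hm₁0 (Real.exp_pos (K * 1)) hZc1 hq6
  set p := m₁ ^ 2 / (4 * Real.exp (K * 1)) with hp'
  have hp0 : 0 < p := by positivity
  have hmc1 := mc_le_of_prob hE hb4 S 0 q _ p hp0 hprob1
  rw [sub_zero] at hmc1
  have hlog1 : Real.log (2 / m₁) ≤ C₇ * L := by
    have h1 : 2 / m₁ = 4 * K * (L : ℝ) ^ (2 * d) := by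
      rw [hm₁]
      field_simp
      ring
    rw [h1, Real.log_mul (by positivity) (by positivity), Real.log_pow]
    have h2 : Real.log (4 * K) ≤ 4 * K := (Real.log_le_sub_one_of_pos (by positivity)).trans
      (by linarith)
    have h3 : Real.log L ≤ L := (Real.log_le_sub_one_of_pos hL0).trans (by linarith)
    have h4 : ((2 * d : ℕ) : ℝ) * Real.log L ≤ 2 * d * L := by
      push_cast
      exact mul_le_mul_of_nonneg_left h3 (by positivity)
    have h5 : 4 * K ≤ 4 * K * L := le_mul_of_one_le_right (by positivity) hL1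
    have h6 : C₇ * L = 4 * K * L + 2 * d * L := by
      rw [hC₇]
      ring
    rw [h6]
    linarith
  have hlog2 : Real.log (1 / p) ≤ C₈ * L := by
    have h1 : 1 / p = (2 / m₁) ^ 2 * Real.exp K := by
      rw [hp', mul_one]
      field_simp
      ring
    rw [h1, Real.log_mul (by positivity) (by positivity), Real.log_pow, Real.log_exp]
    push_cast
    have h5 : K ≤ K * L := le_mul_of_one_le_right (by positivity) hL1
    have h6 : C₈ * L = 2 * (C₇ * L) + K * L := by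
      rw [hC₈]
      ring
    rw [h6]
    linarith
  have hsq1 : √(4 * k4 * N * Real.log (1 / p)) ≤ √(4 * k4 * C₈ * L * N) := by
    refine Real.sqrt_le_sqrt ?_
    have h1 : 0 ≤ 4 * k4 * N := by positivity
    calc 4 * k4 * N * Real.log (1 / p) ≤ 4 * k4 * N * (C₈ * L) :=
          mul_le_mul_of_nonneg_left hlog2 h1
      _ = 4 * k4 * C₈ * L * N := by ring
  have hmc2 : mc P X S (4 * b) 0 q ≤ gq + C₇ * L / l + √(4 * k4 * C₈ * L * N) := by
    have h1 : Real.log (2 / m₁) / l ≤ C₇ * L / l := div_le_div_of_nonneg_right hlog1 hl0.le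
    linarith
  -- the mean is at most `2 b N`
  have hN3 : (1 / l) ^ 3 / (4 * H) ≤ N := by
    refine le_trans ?_ hNlow
    have h1 := div_le_div_of_nonneg_right hM3 (by positivity : 0 ≤ 2 * H)
    refine le_trans (le_of_eq ?_) h1
    field_simp
    ring
  have hN2 : 2 ^ L * (1 / l) / (4 * H) ≤ N := by
    refine le_trans ?_ hN3
    refine div_le_div_of_nonneg_right ?_ (by positivity)
    have h1 : (2 : ℝ) ^ L * (1 / l) ≤ (1 / l) * (1 / l) :=
      mul_le_mul_of_nonneg_right hu (by positivity)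
    have h2 : (1 / l) * (1 / l) ≤ (1 / l) ^ 3 := by
      have h3 : (1 / l) ^ 3 = (1 / l) * (1 / l) * (1 / l) := by ring
      rw [h3]
      exact le_mul_of_one_le_right (by positivity) hu1
    exact h1.trans h2
  have hN1 : 2 ^ L / (4 * H) ≤ N := by
    refine le_trans ?_ hN2
    refine div_le_div_of_nonneg_right ?_ (by positivity)
    exact le_mul_of_one_le_right (by positivity) hu1
  have hterm1 : C₇ * L / l ≤ b / 2 * N := by
    have h1 := hL₃ L (by omega)
    rw [pow_one] at h1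
    have h2 : 8 * H * C₇ * L ≤ b * 2 ^ L := by
      have h3 : 8 * H * C₇ / b * L * b = 8 * H * C₇ * L := by
        field_simp
      have h4 := mul_le_mul_of_nonneg_right h1.le hb.le
      rw [h3] at h4
      linarith
    calc C₇ * L / l = (8 * H * C₇ * L) * (1 / l) / (8 * H) := by
          field_simp
      _ ≤ (b * 2 ^ L) * (1 / l) / (8 * H) := by
          refine div_le_div_of_nonneg_right ?_ (by positivity)
          exact mul_le_mul_of_nonneg_right h2 (by positivity)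
      _ = b / 2 * (2 ^ L * (1 / l) / (4 * H)) := by
          field_simp
          ring
      _ ≤ b / 2 * N := mul_le_mul_of_nonneg_left hN2 (by positivity)
  have hterm2 : √(4 * k4 * C₈ * L * N) ≤ b / 2 * N := by
    refine Real.sqrt_le_iff.2 ⟨by positivity, ?_⟩
    have h1 := hL₄ L (by omega)
    rw [pow_one] at h1
    have h2 : 64 * H * k4 * C₈ * L ≤ b ^ 2 * 2 ^ L := by
      have h3 : 64 * H * k4 * C₈ / b ^ 2 * L * b ^ 2 = 64 * H * k4 * C₈ * L := by
        field_simp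
      have h4 := mul_le_mul_of_nonneg_right h1.le (by positivity : 0 ≤ b ^ 2)
      rw [h3] at h4
      linarith
    have h5 : 4 * k4 * C₈ * L ≤ b ^ 2 / 4 * N := by
      calc 4 * k4 * C₈ * L = (64 * H * k4 * C₈ * L) / (16 * H) := by
            field_simp
            ring
        _ ≤ (b ^ 2 * 2 ^ L) / (16 * H) := div_le_div_of_nonneg_right h2 (by positivity)
        _ = b ^ 2 / 4 * (2 ^ L / (4 * H)) := by
            field_simp
            ring
        _ ≤ b ^ 2 / 4 * N := mul_le_mul_of_nonneg_left hN1 (by positivity)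
    calc 4 * k4 * C₈ * L * N ≤ b ^ 2 / 4 * N * N := mul_le_mul_of_nonneg_right h5 hN0
      _ = (b / 2 * N) ^ 2 := by ring
  have hgle : gq ≤ b * N := by
    have h1 := hp.gle (rv q)
    have h2 := uu_le hE (rv q)
    rw [nr_rv] at h2
    exact h1.trans h2
  have hmc3 : mc P X S (4 * b) 0 q ≤ 2 * b * N := by linarith
  have hcN : 1 / c ≤ N := by
    refine le_trans ?_ hN1
    have h1 := hL₅ L (by omega)
    rw [pow_zero, mul_one] at h1
    rw [le_div_iff₀ (by positivity)]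
    calc 1 / c * (4 * H) = 4 * H / c := by ring
      _ ≤ 2 ^ L := h1.le
  have hG := hgb S q l hSf hl0 hl1 hcN hmc3
  have hncard := n1_le_ncard hE hd hSf q hmc3
  -- the upper bound of `Zc`
  have hZup : Real.log (Zc P X S (4 * b) l 0 q) ≤ K - l * gq := by
    have h1 : Zc P X S (4 * b) l 0 q ≤ Real.exp (K - l * gq) := by
      refine (Zc_le_Z hE hb4 S hl0.le 0 q).trans ?_
      have h2 : Z P X l 0 q * Real.exp (l * gq) * Real.exp (-(l * gq)) ≤
          Real.exp (K * 1) * Real.exp (-(l * gq)) :=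
        mul_le_mul_of_nonneg_right hq5 (Real.exp_pos _).le
      rw [mul_assoc, ← Real.exp_add, ← Real.exp_add, add_neg_cancel, Real.exp_zero, mul_one,
        mul_one] at h2
      exact h2
    have h3 := Real.log_le_log (Zc_pos hE hb4 S 0 q) h1
    rwa [Real.log_exp] at h3
  -- the main inequality
  have hNpos : 0 < N := lt_of_lt_of_le (by positivity) hNlow
  have hn0 : (0 : ℝ) < S.ncard := by linarith
  have hmain : c * (l * N) ^ 2 / S.ncard ≤ C₇ * L + K + l * √(4 * k4 * C₈ * L * N) := by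
    have h1 : l * mc P X S (4 * b) 0 q ≤
        l * (gq + C₇ * L / l + √(4 * k4 * C₈ * L * N)) :=
      mul_le_mul_of_nonneg_left hmc2 hl0.le
    have h2 : l * (gq + C₇ * L / l + √(4 * k4 * C₈ * L * N)) =
        l * gq + C₇ * L + l * √(4 * k4 * C₈ * L * N) := by
      field_simp
    rw [h2] at h1
    linarith
  -- the number of edges
  have hW1 : 1 ≤ W := by
    rw [hW, le_div_iff₀ hl0]
    have h5 : (1 : ℝ) ≤ L ^ 2 := one_le_pow₀ hL1
    have h6 : 1 ≤ K * (L : ℝ) ^ 2 := one_le_mul_of_one_le_of_one_le hK h5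
    linarith
  have hKM1 : 1 ≤ K * M := one_le_mul_of_one_le_of_one_le hK hM1
  have hSb : (S.ncard : ℝ) ≤ K₂ * (K * M) * W ^ (d - 1) := hct W (K * M) hW1 hKM1
  have hLd : (L : ℝ) ^ (2 * d) = (L ^ 2) ^ (d - 1) * L ^ 2 := by
    rw [← pow_mul, ← pow_add]
    congr 1
    omega
  have hld : l ^ (d + 1) = l ^ (d - 1) * l ^ 2 := by
    rw [← pow_add]
    congr 1
    omega
  have hKd : K ^ d = K ^ (d - 1) * K := by
    rw [← pow_succ]
    congr 1
    omega
  have hlow : c * (l ^ (d + 1) * M) / (4 * H ^ 2 * (K₂ * K ^ d) * (L ^ 2) ^ (d - 1)) ≤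
      c * (l * N) ^ 2 / S.ncard := by
    have h1 : c * (l * (M / (2 * H))) ^ 2 / (K₂ * (K * M) * W ^ (d - 1)) ≤
        c * (l * N) ^ 2 / S.ncard := by
      refine div_le_div₀ (by positivity) ?_ hn0 hSb
      refine mul_le_mul_of_nonneg_left ?_ hc.le
      refine pow_le_pow_left₀ (by positivity) ?_ 2
      exact mul_le_mul_of_nonneg_left hNlow hl0.le
    refine le_trans (le_of_eq ?_) h1
    rw [hW, hKd, hld, div_pow, mul_pow]
    field_simp
    ring
  have hsq2 : √(4 * k4 * C₈ * L * N) ≤ C₁₀ * L ^ 2 * √M := by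
    have h1 : 4 * k4 * C₈ * L * N ≤ (C₁₀ * L ^ 2 * √M) ^ 2 := by
      rw [mul_pow, mul_pow, Real.sq_sqrt hM0.le, hC₁₀, Real.sq_sqrt (by positivity)]
      have h2 : (L : ℝ) ^ 3 ≤ L ^ 4 := pow_le_pow_right₀ hL1 (by norm_num)
      calc 4 * k4 * C₈ * L * N ≤ 4 * k4 * C₈ * L * ((2 * V + K) * L ^ 2 * M) :=
            mul_le_mul_of_nonneg_left hNup (by positivity)
        _ = 4 * k4 * C₈ * (2 * V + K) * M * L ^ 3 := by ring
        _ ≤ 4 * k4 * C₈ * (2 * V + K) * M * L ^ 4 :=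
            mul_le_mul_of_nonneg_left h2 (by positivity)
        _ = 4 * k4 * C₈ * (2 * V + K) * (L ^ 2) ^ 2 * M := by ring
    exact Real.sqrt_le_iff.2 ⟨by positivity, h1⟩
  have hfin : l ^ (d + 1) * M ≤ A₀ * L ^ (2 * d) * (1 + l * √M) := by
    have h1 := hlow.trans hmain
    have hD : 0 < 4 * H ^ 2 * (K₂ * K ^ d) * ((L : ℝ) ^ 2) ^ (d - 1) := by positivity
    rw [div_le_iff₀ hD] at h1
    have h2 : C₇ * L + K + l * √(4 * k4 * C₈ * L * N) ≤
        (C₇ + K + C₁₀) * L ^ 2 * (1 + l * √M) := by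
      have h3 : (L : ℝ) ≤ L ^ 2 := le_self_pow₀ hL1 (by norm_num)
      have h4 : (1 : ℝ) ≤ L ^ 2 := one_le_pow₀ hL1
      have h5 : l * √(4 * k4 * C₈ * L * N) ≤ l * (C₁₀ * L ^ 2 * √M) :=
        mul_le_mul_of_nonneg_left hsq2 hl0.le
      have h6 : (C₇ + K + C₁₀) * L ^ 2 * (1 + l * √M) =
          C₇ * L ^ 2 + K * L ^ 2 + C₁₀ * L ^ 2 + (C₇ + K) * L ^ 2 * (l * √M) +
            l * (C₁₀ * L ^ 2 * √M) := by ring
      rw [h6]
      have h7 : 0 ≤ (C₇ + K) * L ^ 2 * (l * √M) := by positivity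
      have h8 : 0 ≤ C₁₀ * (L : ℝ) ^ 2 := by positivity
      have h9 : C₇ * L ≤ C₇ * L ^ 2 := mul_le_mul_of_nonneg_left h3 hC₇0.le
      have h10 : K ≤ K * L ^ 2 := le_mul_of_one_le_right (by positivity) h4
      linarith
    have h3 : c * (l ^ (d + 1) * M) ≤ (C₇ + K + C₁₀) * L ^ 2 * (1 + l * √M) *
        (4 * H ^ 2 * (K₂ * K ^ d) * (L ^ 2) ^ (d - 1)) :=
      h1.trans (mul_le_mul_of_nonneg_right h2 hD.le)
    have h4 : c * (A₀ * L ^ (2 * d) * (1 + l * √M)) = (C₇ + K + C₁₀) * L ^ 2 * (1 + l * √M) *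
        (4 * H ^ 2 * (K₂ * K ^ d) * (L ^ 2) ^ (d - 1)) := by
      rw [hA₀, hLd]
      field_simp
    rw [← h4] at h3
    exact le_of_mul_le_mul_left h3 hc
  have hlast := last_line d hl0 hl1 (by positivity : 0 ≤ A₀ * (L : ℝ) ^ (2 * d)) hMlow hM1 hfin
  have h8 : 8 * (A₀ * (L : ℝ) ^ (2 * d)) ^ 2 = 8 * A₀ ^ 2 * L ^ (4 * d) := by
    rw [mul_pow, ← pow_mul]
    rw [show 2 * d * 2 = 4 * d by ring]
    ring
  rw [h8] at hlast
  have h9 := hL₂ L (by omega)
  linarith

end Pool.Agent.Helper59.PG
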