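import Mathlib

set_option autoImplicit false

/-!
# Block G3: the numbers
-/

namespace Pool.Agent.Helper59.PG

open Filter

/-- powers lose against `2 ^ L` -/
theorem pow_lt_two_pow (C : ℝ) (m : ℕ) : ∃ L₀ : ℕ, ∀ L : ℕ, L₀ ≤ L → C * (L : ℝ) ^ m < 2 ^ L := by
  have h1 := tendsto_pow_const_mul_const_pow_of_abs_lt_one m (r := (1 / 2 : ℝ))
    (by rw [abs_of_pos (by norm_num)]; norm_num)
  have h2 := h1.const_mul (|C| + 1)
  rw [mul_zero] at h2
  obtain ⟨L₀, hL₀⟩ := eventually_atTop.1 (h2.eventually (gt_mem_nhds one_pos))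
  refine ⟨L₀, fun L hL => ?_⟩
  have h3 : (|C| + 1) * ((L : ℝ) ^ m * (1 / 2 : ℝ) ^ L) < 1 := hL₀ L hL
  have h4 : (2 : ℝ) ^ L * (1 / 2) ^ L = 1 := by
    rw [← mul_pow]
    norm_num
  have h5 : (0 : ℝ) < (1 / 2) ^ L := by positivity
  have h6 : C * (L : ℝ) ^ m * (1 / 2) ^ L < 2 ^ L * (1 / 2) ^ L := by
    rw [h4]
    refine lt_of_le_of_lt ?_ h3
    have h7 : C ≤ |C| + 1 := by linarith [le_abs_self C]
    have h8 : (0 : ℝ) ≤ (L : ℝ) ^ m * (1 / 2) ^ L := by positivity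
    calc C * (L : ℝ) ^ m * (1 / 2) ^ L = C * ((L : ℝ) ^ m * (1 / 2) ^ L) := by ring
      _ ≤ _ := mul_le_mul_of_nonneg_right h7 h8
  exact lt_of_mul_lt_mul_right h6 h5.le

/-- the last line of the proof of relevance -/
theorem last_line (d : ℕ) {l M A : ℝ} (hl0 : 0 < l) (hl1 : l ≤ 1) (hA : 0 ≤ A)
    (hM : 1 / (2 * l ^ (2 * d + 3)) ≤ M) (hM1 : 1 ≤ M)
    (h : l ^ (d + 1) * M ≤ A * (1 + l * √M)) : 1 / l ≤ 8 * A ^ 2 := by
  have hM0 : 0 < M := by linarith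
  set y := √M with hy
  have hy2 : y ^ 2 = M := Real.sq_sqrt hM0.le
  have hy1 : 1 ≤ y := by
    rw [hy]
    exact Real.one_le_sqrt.2 hM1
  have hy0 : 0 < y := by linarith
  have h1 : l ^ (d + 1) * y ≤ 2 * A := by
    have h2 : l ^ (d + 1) * y * y ≤ 2 * A * y := by
      calc l ^ (d + 1) * y * y = l ^ (d + 1) * M := by rw [← hy2]; ring
        _ ≤ A * (1 + l * y) := h
        _ ≤ A * (y + 1 * y) := by
            refine mul_le_mul_of_nonneg_left ?_ hA
            have := mul_le_mul_of_nonneg_right hl1 hy0.le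
            linarith
        _ = 2 * A * y := by ring
    exact le_of_mul_le_mul_right h2 hy0
  have h3 : (l ^ (d + 1) * y) ^ 2 ≤ (2 * A) ^ 2 := by
    have h4 : 0 ≤ l ^ (d + 1) * y := by positivity
    exact pow_le_pow_left₀ h4 h1 2
  have h5 : (l ^ (d + 1) * y) ^ 2 = l ^ (2 * d + 2) * M := by
    rw [mul_pow, hy2, ← pow_mul]
    congr 2
    ring
  have h6 : 1 / (2 * l) ≤ l ^ (2 * d + 2) * M := by
    calc 1 / (2 * l) = l ^ (2 * d + 2) * (1 / (2 * l ^ (2 * d + 3))) := by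
          rw [show 2 * d + 3 = (2 * d + 2) + 1 by ring, pow_succ l (2 * d + 2)]
          field_simp
      _ ≤ _ := mul_le_mul_of_nonneg_left hM (by positivity)
  rw [h5] at h3
  have h7 : 1 / l = 2 * (1 / (2 * l)) := by field_simp
  rw [h7]
  nlinarith

end Pool.Agent.Helper59.PG
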